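import Pool.Agent.U439.OG.Large

/-!
# The final assembly
-/

set_option autoImplicit false
set_option linter.unusedSectionVars false

namespace Pool.Agent.U439.OG

open Finset Classical

variable {V : Type} [Fintype V]

/-- the case of at least eleven vertices -/
lemma eleven_false {G : SimpleGraph V} {a b : ℕ} (ha : Low G a) (hb : Low Gᶜ b)
    (h2a : 2 * a ≤ Fintype.card V) (hba : b ≤ a) (hs : a + b = (2 * Fintype.card V + 12) / 3)
    (h11 : 11 ≤ Fintype.card V) : False := by
  rcases Nat.lt_or_ge (Fintype.card V) 126 with h | h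
  · exact small_false ha hb h2a hba hs h11 h
  · exact large_false ha hb h2a hba hs h

lemma exists_min_force (H : SimpleGraph V) : ∃ k, Force H k ∧ Low H k := by
  have h : ∃ k, Force H k := ⟨_, force_of_struct (H := H) (C := ∅) (m := id) (fun _ => rfl)
    (fun v h => absurd rfl h)⟩
  exact ⟨Nat.find h, Nat.find_spec h, fun k hk => Nat.find_min' h hk⟩

lemma exists_adj {G : SimpleGraph V} (h : G.Connected) (h2 : 2 ≤ Fintype.card V) (v : V) :
    ∃ w, G.Adj v w := by
  have : Nontrivial V := Fintype.one_lt_card_iff_nontrivial.1 (by omega)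
  obtain ⟨w, hw⟩ := exists_ne v
  obtain ⟨p⟩ := h.preconnected v w
  cases p with
  | nil => exact absurd rfl hw
  | cons h _ => exact ⟨_, h⟩

lemma low_card {H : SimpleGraph V} {a : ℕ} (ha : Low H a) : a ≤ Fintype.card V := by
  have h := low_C ha univ
  rw [compl_univ, sum_empty, card_univ] at h
  omega

theorem main (G : SimpleGraph V) (hG : G.Connected) (hGc : Gᶜ.Connected) :
    ∃ k₁ k₂ : ℕ, Force G k₁ ∧ Force Gᶜ k₂ ∧ 3 * (k₁ + k₂) ≤ 2 * Fintype.card V + 9 := by
  obtain ⟨a, ha1, ha⟩ := exists_min_force G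
  obtain ⟨b, hb1, hb⟩ := exists_min_force Gᶜ
  refine ⟨a, b, ha1, hb1, ?_⟩
  by_contra hcon
  push Not at hcon
  have hac := low_card ha
  have hbc := low_card hb
  by_cases h2 : 2 ≤ Fintype.card V
  · have iso1 := exists_adj hG h2
    have iso2 := exists_adj hGc h2
    have hd1 : ∀ x, 1 ≤ (nbh G x).card := fun x => by
      obtain ⟨w, hw⟩ := iso1 x
      exact card_pos.2 ⟨w, mem_nbh.2 hw⟩
    have hd2 : ∀ x, 1 ≤ (nbh Gᶜ x).card := fun x => by
      obtain ⟨w, hw⟩ := iso2 x
      exact card_pos.2 ⟨w, mem_nbh.2 hw⟩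
    have h3a := two_thirds ha iso1
    have h3b := two_thirds hb iso2
    have ha4 : 4 ≤ a := by omega
    have hb4 : 4 ≤ b := by omega
    have ha' : Low Gᶜᶜ a := by rw [compl_compl]; exact ha
    have h2a := half ha hb hb4 hd1
    have h2b := half hb ha' ha4 hd2
    rcases Nat.lt_or_ge (Fintype.card V) 11 with h10 | h11
    · have hn : Fintype.card V = 10 := by omega
      have ha5 : a = 5 := by omega
      have hb5 : b = 5 := by omega
      subst ha5 hb5
      exact no_ten ha hb hn hd1 hd2
    · obtain ⟨a', b', h1, h2, h3⟩ : ∃ a' b', a' ≤ a ∧ b' ≤ b ∧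
          a' + b' = (2 * Fintype.card V + 12) / 3 := by
        refine ⟨a - (a + b - (2 * Fintype.card V + 12) / 3), b, by omega, le_rfl, ?_⟩
        omega
      have la := Low.mono h1 ha
      have lb := Low.mono h2 hb
      rcases le_total b' a' with h | h
      · exact eleven_false la lb (by omega) h h3 h11
      · exact eleven_false lb (Low.mono h1 ha') (by omega) h (by omega) h11
  · omega

end Pool.Agent.U439.OG
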