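import Pool.Agent.U439.OG.Count

/-!
# The numerical check for `11 ≤ n ≤ 125`
-/

set_option autoImplicit false
set_option linter.unusedSectionVars false

namespace Pool.Agent.U439.OG

/-- maximum of the weight over `d < k` -/
def maxLow (p q n : ℕ) : ℕ → ℕ
  | 0 => 0
  | k + 1 => max (maxLow p q n k) (wgt p q n k)

/-- maximum of the weight over `n - 1 - d < l` -/
def maxHigh (p q n : ℕ) : ℕ → ℕ
  | 0 => 0
  | l + 1 => max (maxHigh p q n l) (wgt p q n (n - 1 - l))

/-- the inequality for all `d < D` with `lo ≤ d` and `d + hi ≤ n - 1` -/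
def allMid (p q n lo hi c E R : ℕ) : ℕ → Bool
  | 0 => true
  | d + 1 => allMid p q n lo hi c E R d &&
      (Nat.ble (d + 1) lo || Nat.ble n (d + hi) || Nat.ble (c * wgt p q n d + E + 1) R)

/-- the check for given weights -/
def chk (p q n a b mL mH : ℕ) : Bool :=
  allMid p q n (b - 2 + mL) (a - 2 + mH) (n - mL - mH)
    (mL * maxLow p q n (b - 2) + mH * maxHigh p q n (a - 2))
    ((p * (b - 4) + q * (a - 4)) * (n * (n - 1) * (n - 2) * (n - 3))) n

/-- the check with one of three pairs of weights -/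
def chkAny (n a b mL mH : ℕ) : Bool :=
  chk 3 2 n a b mL mH || chk 1 1 n a b mL mH || chk 2 3 n a b mL mH

/-- the check for all pairs with `a < A`, `a + b = s` and `b ≤ a` -/
def chkPairs (n s : ℕ) : ℕ → Bool
  | 0 => true
  | a + 1 => chkPairs n s a && (Nat.ble (2 * a + 1) s ||
      (chkAny n a (s - a) 0 0 && chkAny n a (s - a) 0 1 && chkAny n a (s - a) 1 0 &&
        chkAny n a (s - a) 1 1))

/-- the check for all `n < N` -/
def chkUpTo : ℕ → Bool
  | 0 => true
  | n + 1 => chkUpTo n && (Nat.ble n 10 || chkPairs n ((2 * n + 12) / 3) (n / 2 + 1))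

theorem chk_all : chkUpTo 126 = true := by decide +kernel

end Pool.Agent.U439.OG
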