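import Pool.Agent.U439.OG.Ten

/-!
# Summing the basic bound over all sets of four vertices
-/

set_option autoImplicit false
set_option linter.unusedSectionVars false

namespace Pool.Agent.U439.OG

open Finset Classical

variable {V : Type} [Fintype V]

/-- `d (d - 1) (d - 2) (2 n - 5 - d)`, written as `2 · 12 · (2 C(d,4) + C(d,3) (n - 1 - d)) / 2`. -/
def psi (n d : ℕ) : ℕ := d * (d - 1) * (d - 2) * (d - 3) + 2 * (d * (d - 1) * (d - 2)) * (n - 1 - d)

lemma six_choose (d : ℕ) : 6 * d.choose 3 = d * (d - 1) * (d - 2) := by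
  have h := Nat.descFactorial_eq_factorial_mul_choose d 3
  have h2 : (3 : ℕ).factorial = 6 := rfl
  rw [h2] at h
  rw [← h]
  simp [Nat.descFactorial_succ]
  ring

lemma twentyfour_choose (d : ℕ) : 24 * d.choose 4 = d * (d - 1) * (d - 2) * (d - 3) := by
  have h := Nat.descFactorial_eq_factorial_mul_choose d 4
  have h2 : (4 : ℕ).factorial = 24 := rfl
  rw [h2] at h
  rw [← h]
  simp [Nat.descFactorial_succ]
  ring

lemma psi_eq (n d : ℕ) : psi n d = 12 * (2 * d.choose 4 + d.choose 3 * (n - 1 - d)) := by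
  unfold psi
  rw [← twentyfour_choose, ← six_choose]
  ring

/-- counting the four-element sets by their intersection with `A` -/
lemma sum_four (S A : Finset V) (hA : A ⊆ S) :
    ∑ J ∈ powersetCard 4 S, ((A ∩ J).card + 2 - 4) ≤
      2 * A.card.choose 4 + A.card.choose 3 * (S.card - A.card) := by
  have h1 : ∀ J ∈ powersetCard 4 S, (A ∩ J).card + 2 - 4 ≤
      2 * (if (A ∩ J).card = 4 then 1 else 0) + (if (A ∩ J).card = 3 then 1 else 0) := by
    intro J hJ
    have h2 : (A ∩ J).card ≤ 4 := by
      rw [← (mem_powersetCard.1 hJ).2]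
      exact card_le_card inter_subset_right
    split_ifs <;> omega
  refine (sum_le_sum h1).trans ?_
  rw [sum_add_distrib, ← mul_sum, ← card_filter, ← card_filter]
  apply Nat.add_le_add
  · apply Nat.mul_le_mul_left
    rw [← card_powersetCard]
    apply card_le_card
    intro J hJ
    rw [mem_filter, mem_powersetCard] at hJ
    rw [mem_powersetCard]
    obtain ⟨⟨h2, h3⟩, h4⟩ := hJ
    have h5 : A ∩ J = J := by
      apply eq_of_subset_of_card_le inter_subset_right
      omega
    exact ⟨by rw [← h5]; exact inter_subset_left, h3⟩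
  · rw [← card_powersetCard, ← card_sdiff_of_subset hA, ← card_product]
    refine (card_le_card ?_).trans (card_image_le (s := powersetCard 3 A ×ˢ (S \ A))
      (f := fun p : Finset V × V => insert p.2 p.1))
    intro J hJ
    rw [mem_filter, mem_powersetCard] at hJ
    obtain ⟨⟨h2, h3⟩, h4⟩ := hJ
    have h5 : (J \ A).card = 1 := by
      have := card_sdiff_add_card_inter J A
      rw [inter_comm] at this
      omega
    obtain ⟨y, hy⟩ := card_eq_one.1 h5
    have hyJ : y ∈ J \ A := by rw [hy]; exact mem_singleton_self y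
    rw [mem_sdiff] at hyJ
    rw [mem_image]
    refine ⟨(A ∩ J, y), ?_, ?_⟩
    · rw [mem_product, mem_powersetCard, mem_sdiff]
      exact ⟨⟨inter_subset_left, h4⟩, h2 hyJ.1, hyJ.2⟩
    · ext z
      simp only [mem_insert, mem_inter]
      constructor
      · rintro (rfl | h)
        · exact hyJ.1
        · exact h.2
      · intro hz
        by_cases hzA : z ∈ A
        · exact Or.inr ⟨hzA, hz⟩
        · left
          have : z ∈ J \ A := mem_sdiff.2 ⟨hz, hzA⟩
          rw [hy] at this
          exact mem_singleton.1 this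

lemma count_sum {G : SimpleGraph V} {b : ℕ} (hb : Low Gᶜ b) :
    (2 * b) * (Fintype.card V).choose 4 ≤ 8 * (Fintype.card V).choose 4 +
      ∑ x : V, (2 * (nbh G x).card.choose 4 +
        (nbh G x).card.choose 3 * (Fintype.card V - 1 - (nbh G x).card)) := by
  set n := Fintype.card V with hn
  have h1 : ∑ J ∈ powersetCard 4 (univ : Finset V), 2 * b ≤
      ∑ J ∈ powersetCard 4 (univ : Finset V), (8 + ∑ x ∈ Jᶜ, ((nbh G x ∩ J).card + 2 - 4)) := by
    apply sum_le_sum
    intro J hJ
    have h2 := low_compl hb J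
    rw [(mem_powersetCard.1 hJ).2] at h2
    exact h2
  rw [sum_add_distrib, sum_const, sum_const, card_powersetCard, card_univ, smul_eq_mul,
    smul_eq_mul] at h1
  have h2 : ∑ J ∈ powersetCard 4 (univ : Finset V), ∑ x ∈ Jᶜ, ((nbh G x ∩ J).card + 2 - 4) =
      ∑ x : V, ∑ J ∈ powersetCard 4 ((univ : Finset V).erase x), ((nbh G x ∩ J).card + 2 - 4) := by
    apply sum_comm'
    intro J x
    simp only [mem_powersetCard, mem_compl, mem_univ, and_true, subset_univ, true_and]
    constructor
    · rintro ⟨h1, h2⟩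
      refine ⟨?_, h1⟩
      intro y hy
      rw [mem_erase]
      exact ⟨fun h => h2 (h ▸ hy), mem_univ _⟩
    · rintro ⟨h1, h2⟩
      refine ⟨h2, fun h => ?_⟩
      have := h1 h
      simp at this
  rw [h2] at h1
  have h3 : ∑ x : V, ∑ J ∈ powersetCard 4 ((univ : Finset V).erase x),
      ((nbh G x ∩ J).card + 2 - 4) ≤ ∑ x : V, (2 * (nbh G x).card.choose 4 +
        (nbh G x).card.choose 3 * (n - 1 - (nbh G x).card)) := by
    apply sum_le_sum
    intro x _
    have h4 := sum_four ((univ : Finset V).erase x) (nbh G x) (by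
      intro y hy
      rw [mem_erase]
      exact ⟨fun h => notMem_nbh_self G x (h ▸ hy), mem_univ _⟩)
    rw [card_erase_of_mem (mem_univ _), card_univ, ← hn] at h4
    exact h4
  rw [← hn] at h1
  linarith [mul_comm (2 * b) (n.choose 4), mul_comm 8 (n.choose 4)]

lemma count_psi {G : SimpleGraph V} {b : ℕ} (hb : Low Gᶜ b) (hb4 : 4 ≤ b) :
    (b - 4) * (Fintype.card V * (Fintype.card V - 1) * (Fintype.card V - 2) *
      (Fintype.card V - 3)) ≤ ∑ x : V, psi (Fintype.card V) (nbh G x).card := by
  have h := count_sum hb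
  set n := Fintype.card V with hn
  rw [sum_congr rfl (fun x _ => psi_eq n _), ← mul_sum, ← twentyfour_choose]
  obtain ⟨c, rfl⟩ : ∃ c, b = c + 4 := ⟨b - 4, by omega⟩
  rw [Nat.add_sub_cancel]
  nlinarith

/-- the total weight, for the weights `p` and `q` -/
def wgt (p q n d : ℕ) : ℕ := p * psi n d + q * psi n (n - 1 - d)

lemma count_wgt {G : SimpleGraph V} {a b : ℕ} (ha : Low G a) (hb : Low Gᶜ b) (ha4 : 4 ≤ a)
    (hb4 : 4 ≤ b) (p q : ℕ) :
    (p * (b - 4) + q * (a - 4)) * (Fintype.card V * (Fintype.card V - 1) * (Fintype.card V - 2) *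
      (Fintype.card V - 3)) ≤ ∑ x : V, wgt p q (Fintype.card V) (nbh G x).card := by
  have h1 := count_psi hb hb4
  have ha' : Low Gᶜᶜ a := by rw [compl_compl]; exact ha
  have h2 := count_psi ha' ha4
  have h3 : ∑ x : V, psi (Fintype.card V) (nbh Gᶜ x).card =
      ∑ x : V, psi (Fintype.card V) (Fintype.card V - 1 - (nbh G x).card) := by
    apply sum_congr rfl
    intro x _
    have := deg_compl G x
    congr 1
    omega
  rw [h3] at h2
  unfold wgt
  rw [sum_add_distrib, ← mul_sum, ← mul_sum, add_mul, mul_assoc p, mul_assoc q]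
  exact Nat.add_le_add (Nat.mul_le_mul_left _ h1) (Nat.mul_le_mul_left _ h2)

lemma Low.mono {G : SimpleGraph V} {a a' : ℕ} (h : a' ≤ a) (ha : Low G a) : Low G a' :=
  fun k hk => h.trans (ha k hk)

end Pool.Agent.U439.OG
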