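import Mathlib

/-!
# The oriented domination game: a bound for Minimizer

`Force H k` says that Minimizer, who moves first, can make sure that the final orientation of the
graph `H` has a dominating set of at most `k` vertices.

`force_of_struct`: let `C` be a set of vertices, `m` a matching (an involution moving every vertex
to itself or to a neighbour), and let `X` be the set of the vertices outside `C` fixed by `m`. Then Minimizer can force
`|C| + |M| / 2 + (∑_{x ∈ X} max(0, 2 - |N(x) ∩ C|)) / 2`, `M` being the set of matched vertices.
-/

set_option autoImplicit false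
set_option linter.unusedSectionVars false

namespace Pool.Agent.U439.OG

open Finset

variable {V : Type} [Fintype V] [DecidableEq V]

/-- Minimizer can force a dominating set of size at most `k`. -/
def Force (H : SimpleGraph V) (k : ℕ) : Prop :=
  ∃ P : Set (Finset (V × V)), (∅ : Finset (V × V)) ∈ P ∧ ∀ A ∈ P,
    ((∀ u v : V, H.Adj u v → (u, v) ∈ A ∨ (v, u) ∈ A) →
        ∃ S : Finset V, S.card ≤ k ∧ ∀ v : V, v ∉ S → ∃ u ∈ S, (u, v) ∈ A) ∧
    ((¬ ∀ u v : V, H.Adj u v → (u, v) ∈ A ∨ (v, u) ∈ A) → Even A.card →
        ∃ u v : V, H.Adj u v ∧ (u, v) ∉ A ∧ (v, u) ∉ A ∧ insert (u, v) A ∈ P) ∧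
    ((¬ ∀ u v : V, H.Adj u v → (u, v) ∈ A ∨ (v, u) ∈ A) → Odd A.card →
        ∀ u v : V, H.Adj u v → (u, v) ∉ A → (v, u) ∉ A → insert (u, v) A ∈ P)

section
variable (H : SimpleGraph V) (C : Finset V)

open Classical in
/-- number of unoriented edges between `x` and `C` -/
noncomputable def fr (A : Finset (V × V)) (x : V) : ℕ :=
  (C.filter (fun c => H.Adj x c ∧ (c, x) ∉ A ∧ (x, c) ∉ A)).card

open Classical in
/-- the weight of `x` in the position `A` -/
noncomputable def wt (A : Finset (V × V)) (x : V) : ℕ :=
  if ∃ c ∈ C, (c, x) ∈ A then 0 else 2 - fr H C A x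

variable {H C}

lemma wt_insert_le {A : Finset (V × V)} {u v x : V} (huv : H.Adj u v)
    (hx : ¬ (x = u ∧ v ∈ C)) : wt H C (insert (u, v) A) x ≤ wt H C A x := by
  classical
  have hne : u ≠ v := huv.ne
  unfold wt
  by_cases h1 : ∃ c ∈ C, (c, x) ∈ insert (u, v) A
  · rw [if_pos h1]; exact Nat.zero_le _
  · rw [if_neg h1]
    have h2 : ¬ ∃ c ∈ C, (c, x) ∈ A := by
      rintro ⟨c, hc, hcA⟩
      exact h1 ⟨c, hc, mem_insert_of_mem hcA⟩
    rw [if_neg h2]
    have h3 : fr H C A x ≤ fr H C (insert (u, v) A) x := by
      unfold fr
      apply card_le_card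
      intro c hc
      rw [mem_filter] at hc ⊢
      obtain ⟨hcC, hadj, ha, hb⟩ := hc
      refine ⟨hcC, hadj, ?_, ?_⟩
      · intro h
        exact h1 ⟨c, hcC, h⟩
      · intro h
        rw [mem_insert] at h
        rcases h with h | h
        · rw [Prod.mk.injEq] at h
          exact hx ⟨h.1, h.2 ▸ hcC⟩
        · exact hb h
    omega

lemma wt_insert_le' {A : Finset (V × V)} {u v x : V} (huv : H.Adj u v) :
    wt H C (insert (u, v) A) x ≤ wt H C A x + 1 := by
  classical
  by_cases hx : x = u ∧ v ∈ C
  · obtain ⟨rfl, hv⟩ := hx
    unfold wt
    by_cases h1 : ∃ c ∈ C, (c, x) ∈ insert (x, v) A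
    · rw [if_pos h1]; exact Nat.zero_le _
    · rw [if_neg h1]
      have h2 : ¬ ∃ c ∈ C, (c, x) ∈ A := by
        rintro ⟨c, hc, hcA⟩
        exact h1 ⟨c, hc, mem_insert_of_mem hcA⟩
      rw [if_neg h2]
      have h3 : fr H C A x ≤ fr H C (insert (x, v) A) x + 1 := by
        unfold fr
        have hsub : (C.filter (fun c => H.Adj x c ∧ (c, x) ∉ A ∧ (x, c) ∉ A)) ⊆
            insert v (C.filter (fun c => H.Adj x c ∧ (c, x) ∉ insert (x, v) A ∧
              (x, c) ∉ insert (x, v) A)) := by
          intro c hc
          rw [mem_filter] at hc
          obtain ⟨hcC, hadj, ha, hb⟩ := hc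
          rw [mem_insert, mem_filter]
          by_cases hcv : c = v
          · exact Or.inl hcv
          · right
            refine ⟨hcC, hadj, fun h => h1 ⟨c, hcC, h⟩, ?_⟩
            intro h
            rw [mem_insert, Prod.mk.injEq] at h
            rcases h with h | h
            · exact hcv h.2
            · exact hb h
        exact (card_le_card hsub).trans (card_insert_le _ _)
      omega
  · exact (wt_insert_le huv hx).trans (Nat.le_succ _)

end

section
variable (H : SimpleGraph V) (C : Finset V) (m : V → V)

/-- the set of the vertices which are neither centres nor matched -/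
def rest : Finset V := univ.filter (fun x => x ∉ C ∧ m x = x)

/-- the set of the matched vertices -/
def mat : Finset V := univ.filter (fun x => m x ≠ x)

open Classical in
/-- the initial total weight -/
noncomputable def defect : ℕ := ∑ x ∈ rest C m, (2 - (C.filter (fun c => H.Adj x c)).card)

/-- total weight -/
noncomputable def pot (A : Finset (V × V)) : ℕ := ∑ x ∈ rest C m, wt H C A x

variable {H C m}

lemma pot_empty : pot H C m ∅ = defect H C m := by
  classical
  unfold pot defect
  apply sum_congr rfl
  intro x _
  unfold wt fr
  simp

lemma mem_rest {x : V} : x ∈ rest C m ↔ x ∉ C ∧ m x = x := by simp [rest]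

lemma pot_insert_le {A : Finset (V × V)} {u v : V} (huv : H.Adj u v)
    (h : ¬ (u ∈ rest C m ∧ v ∈ C)) : pot H C m (insert (u, v) A) ≤ pot H C m A := by
  unfold pot
  apply sum_le_sum
  intro x hx
  apply wt_insert_le huv
  rintro ⟨rfl, hv⟩
  exact h ⟨hx, hv⟩

lemma pot_insert_le' {A : Finset (V × V)} {u v : V} (huv : H.Adj u v) :
    pot H C m (insert (u, v) A) ≤ pot H C m A + 1 := by
  classical
  by_cases h : u ∈ rest C m ∧ v ∈ C
  · obtain ⟨hu, hv⟩ := h
    unfold pot
    rw [← add_sum_erase _ _ hu, ← add_sum_erase (rest C m) (wt H C A) hu]
    have h1 : wt H C (insert (u, v) A) u ≤ wt H C A u + 1 := wt_insert_le' huv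
    have h2 : ∑ x ∈ (rest C m).erase u, wt H C (insert (u, v) A) x ≤
        ∑ x ∈ (rest C m).erase u, wt H C A x := by
      apply sum_le_sum
      intro x hx
      apply wt_insert_le huv
      rintro ⟨rfl, -⟩
      exact (mem_erase.1 hx).1 rfl
    omega
  · exact (pot_insert_le huv h).trans (Nat.le_succ _)

theorem force_of_struct (hm : ∀ v, m (m v) = v) (hadj : ∀ v, m v ≠ v → H.Adj v (m v)) :
    Force H (C.card + (mat m).card / 2 + defect H C m / 2) := by
  classical
  set K := defect H C m / 2 with hK
  refine ⟨{A | (∀ p ∈ A, H.Adj p.1 p.2) ∧ (∀ p ∈ A, (p.2, p.1) ∉ A) ∧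
    (Even A.card → pot H C m A ≤ 2 * K + 1) ∧ (Odd A.card → pot H C m A ≤ 2 * K)}, ?_, ?_⟩
  · refine ⟨by simp, by simp, fun _ => ?_, by simp⟩
    rw [pot_empty]
    omega
  · rintro A ⟨hA1, hA2, hAe, hAo⟩
    -- inserting an edge keeps the position valid
    have hins : ∀ u v : V, H.Adj u v → (u, v) ∉ A → (v, u) ∉ A →
        (∀ p ∈ insert (u, v) A, H.Adj p.1 p.2) ∧
        (∀ p ∈ insert (u, v) A, (p.2, p.1) ∉ insert (u, v) A) := by
      intro u v huv h1 h2
      constructor
      · intro p hp
        rw [mem_insert] at hp
        rcases hp with rfl | hp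
        · exact huv
        · exact hA1 p hp
      · intro p hp hp'
        rw [mem_insert] at hp hp'
        rcases hp with rfl | hp
        · rcases hp' with hp' | hp'
          · rw [Prod.mk.injEq] at hp'
            exact huv.ne hp'.2
          · exact h2 hp'
        · rcases hp' with hp' | hp'
          · rw [Prod.mk.injEq] at hp'
            apply h2
            have : p = (v, u) := Prod.ext hp'.2 hp'.1
            rw [← this]; exact hp
          · exact hA2 p hp hp'
    have hK2 : pot H C m A ≤ 2 * K + 1 := by
      rcases Nat.even_or_odd A.card with h | h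
      · exact hAe h
      · exact (hAo h).trans (Nat.le_succ _)
    refine ⟨?_, ?_, ?_⟩
    · -- the end of the game
      intro hall
      set L := (rest C m).filter (fun x => ¬ ∃ c ∈ C, (c, x) ∈ A) with hL
      set T := (mat m).filter (fun v => (v, m v) ∈ A) with hT
      refine ⟨C ∪ L ∪ T, ?_, ?_⟩
      · have hL1 : 2 * L.card ≤ pot H C m A := by
          have : ∑ x ∈ L, wt H C A x ≤ pot H C m A :=
            sum_le_sum_of_subset (filter_subset _ _)
          have h2 : ∑ x ∈ L, wt H C A x = 2 * L.card := by
            rw [mul_comm, ← smul_eq_mul, ← sum_const]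
            apply sum_congr rfl
            intro x hx
            rw [hL, mem_filter] at hx
            unfold wt
            rw [if_neg hx.2]
            have : fr H C A x = 0 := by
              unfold fr
              rw [card_eq_zero, filter_eq_empty_iff]
              rintro c hc ⟨ha, hb, hc'⟩
              rcases hall x c ha with h | h
              · exact hc' h
              · exact hb h
            omega
          omega
        have hT1 : 2 * T.card ≤ (mat m).card := by
          have h1 : (T.image m).card = T.card := by
            apply card_image_of_injective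
            intro a b hab
            have := congrArg m hab
            rwa [hm, hm] at this
          have h2 : Disjoint T (T.image m) := by
            rw [disjoint_left]
            intro x hx hx'
            rw [mem_image] at hx'
            obtain ⟨y, hy, rfl⟩ := hx'
            rw [hT, mem_filter] at hx hy
            have := hA2 _ hy.2
            apply this
            have h3 := hx.2
            rw [hm] at h3
            exact h3
          have h3 : T ∪ T.image m ⊆ mat m := by
            intro x hx
            rw [mem_union] at hx
            rcases hx with hx | hx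
            · exact (mem_filter.1 hx).1
            · rw [mem_image] at hx
              obtain ⟨y, hy, rfl⟩ := hx
              have hy' := (mem_filter.1 hy).1
              simp only [mat, mem_filter, mem_univ, true_and] at hy' ⊢
              rw [hm]
              exact fun h => hy' h.symm
          have h4 := card_le_card h3
          rw [card_union_of_disjoint h2, h1] at h4
          omega
        have h1 := card_union_le (C ∪ L) T
        have h2 := card_union_le C L
        omega
      · intro v hv
        simp only [mem_union, not_or] at hv
        obtain ⟨⟨hvC, hvL⟩, hvT⟩ := hv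
        by_cases hmv : m v = v
        · have hvX : v ∈ rest C m := mem_rest.2 ⟨hvC, hmv⟩
          have : ∃ c ∈ C, (c, v) ∈ A := by
            by_contra hcon
            exact hvL (mem_filter.2 ⟨hvX, hcon⟩)
          obtain ⟨c, hc, hcA⟩ := this
          exact ⟨c, by simp [hc], hcA⟩
        · have hvM : v ∈ mat m := by simp [mat, hmv]
          have h1 : (v, m v) ∉ A := fun h => hvT (mem_filter.2 ⟨hvM, h⟩)
          have h2 : (m v, v) ∈ A := by
            rcases hall v (m v) (hadj v hmv) with h | h
            · exact absurd h h1
            · exact h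
          refine ⟨m v, ?_, h2⟩
          rw [mem_union]
          right
          rw [hT, mem_filter]
          refine ⟨?_, ?_⟩
          · simp only [mat, mem_filter, mem_univ, true_and]
            rw [hm]
            exact fun h => hmv h.symm
          · rw [hm]; exact h2
    · -- a move of Minimizer
      intro hnall heven
      by_cases hex : ∃ x ∈ rest C m, wt H C A x = 1
      · obtain ⟨x, hx, hw⟩ := hex
        have hnw : ¬ ∃ c ∈ C, (c, x) ∈ A := by
          intro h
          unfold wt at hw
          rw [if_pos h] at hw
          omega
        have hfr : fr H C A x = 1 := by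
          unfold wt at hw
          rw [if_neg hnw] at hw
          omega
        have hne : (C.filter (fun c => H.Adj x c ∧ (c, x) ∉ A ∧ (x, c) ∉ A)).Nonempty := by
          rw [← card_pos]
          unfold fr at hfr
          omega
        obtain ⟨c, hc⟩ := hne
        rw [mem_filter] at hc
        obtain ⟨hcC, hadjc, h1, h2⟩ := hc
        have hcx : c ∉ rest C m := fun h => (mem_rest.1 h).1 hcC
        obtain ⟨i1, i2⟩ := hins c x hadjc.symm h1 h2
        have hlt : pot H C m (insert (c, x) A) < pot H C m A := by
          unfold pot
          apply sum_lt_sum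
          · intro y hy
            apply wt_insert_le hadjc.symm
            rintro ⟨rfl, -⟩
            exact hcx hy
          · refine ⟨x, hx, ?_⟩
            rw [hw]
            unfold wt
            rw [if_pos ⟨c, hcC, mem_insert_self _ _⟩]
            exact Nat.zero_lt_one
        refine ⟨c, x, hadjc.symm, h1, h2, i1, i2, fun _ => by omega, fun _ => by omega⟩
      · -- no vertex of weight one
        push Not at hex
        have heven2 : Even (pot H C m A) := by
          unfold pot
          apply Finset.even_sum
          intro x hx
          have h1 := hex x hx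
          have h2 : wt H C A x ≤ 2 := by
            unfold wt
            split_ifs
            · omega
            · omega
          have h3 : wt H C A x = 0 ∨ wt H C A x = 2 := by omega
          rcases h3 with h | h <;> rw [h] <;> decide
        have hle : pot H C m A ≤ 2 * K := by
          obtain ⟨r, hr⟩ := heven2
          omega
        push Not at hnall
        obtain ⟨u, v, huv, h1, h2⟩ := hnall
        by_cases hh : u ∈ rest C m ∧ v ∈ C
        · obtain ⟨i1, i2⟩ := hins v u huv.symm h2 h1
          have : pot H C m (insert (v, u) A) ≤ pot H C m A := by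
            apply pot_insert_le huv.symm
            rintro ⟨hv, -⟩
            exact (mem_rest.1 hv).1 hh.2
          exact ⟨v, u, huv.symm, h2, h1, i1, i2, fun _ => by omega, fun _ => by omega⟩
        · obtain ⟨i1, i2⟩ := hins u v huv h1 h2
          have := pot_insert_le (A := A) huv hh
          exact ⟨u, v, huv, h1, h2, i1, i2, fun _ => by omega, fun _ => by omega⟩
    · -- a move of Maximizer
      intro _ hodd u v huv h1 h2
      obtain ⟨i1, i2⟩ := hins u v huv h1 h2
      have h3 := pot_insert_le' (m := m) (A := A) (C := C) huv
      have h4 := hAo hodd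
      have hc : (insert (u, v) A).card = A.card + 1 := card_insert_of_notMem h1
      refine ⟨i1, i2, fun _ => by omega, fun h => ?_⟩
      exfalso
      rw [hc] at h
      rcases hodd with ⟨r, hr⟩
      rcases h with ⟨s, hs⟩
      omega

lemma force_mono {H : SimpleGraph V} {k l : ℕ} (hkl : k ≤ l) (h : Force H k) : Force H l := by
  obtain ⟨P, h0, hP⟩ := h
  refine ⟨P, h0, fun A hA => ⟨fun hall => ?_, (hP A hA).2⟩⟩
  obtain ⟨S, hS, hd⟩ := (hP A hA).1 hall
  exact ⟨S, hS.trans hkl, hd⟩

end

end Pool.Agent.U439.OG
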