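import Pool.Agent.U439.OG.TwoThirds

/-!
# The bound `n/2`
-/

set_option autoImplicit false
set_option linter.unusedSectionVars false

namespace Pool.Agent.U439.OG

open Finset Classical

variable {V : Type} [Fintype V]

/-- the neighbourhood -/
noncomputable def nbh (G : SimpleGraph V) (x : V) : Finset V := univ.filter (fun y => G.Adj x y)

lemma mem_nbh {G : SimpleGraph V} {x y : V} : y ∈ nbh G x ↔ G.Adj x y := by simp [nbh]

lemma filter_adj_eq (G : SimpleGraph V) (x : V) (C : Finset V) :
    C.filter (fun c => G.Adj x c) = nbh G x ∩ C := by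
  ext y; simp [nbh, and_comm]

/-- The basic bound: any set `C`. -/
lemma low_C {G : SimpleGraph V} {a : ℕ} (ha : Low G a) (C : Finset V) :
    2 * a ≤ 2 * C.card + ∑ x ∈ Cᶜ, (2 - (nbh G x ∩ C).card) := by
  have h := ha _ (force_of_struct (H := G) (C := C) (m := id) (fun _ => rfl)
    (fun v h => absurd rfl h))
  have h1 : (mat (id : V → V)).card = 0 := by simp [mat]
  have h2 : defect G C id = ∑ x ∈ Cᶜ, (2 - (nbh G x ∩ C).card) := by
    unfold defect
    have : rest C (id : V → V) = Cᶜ := by
      ext x; simp [rest]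
    rw [this]
    apply sum_congr rfl
    intro x _
    congr 2
    rw [← filter_adj_eq]
  rw [h1, h2] at h
  omega

lemma nbh_compl_inter {G : SimpleGraph V} {x : V} {C : Finset V} (hx : x ∉ C) :
    (nbh Gᶜ x ∩ C).card = C.card - (nbh G x ∩ C).card := by
  have h1 : nbh Gᶜ x ∩ C = C \ (nbh G x ∩ C) := by
    ext y
    simp only [mem_inter, mem_nbh, SimpleGraph.compl_adj, mem_sdiff]
    constructor
    · rintro ⟨⟨h1, h2⟩, h3⟩
      exact ⟨h3, fun h => h2 h.1⟩
    · rintro ⟨h1, h2⟩
      exact ⟨⟨fun h => hx (h ▸ h1), fun h => h2 ⟨h, h1⟩⟩, h1⟩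
  rw [h1, card_sdiff_of_subset inter_subset_right]

lemma low_compl {G : SimpleGraph V} {b : ℕ} (hb : Low Gᶜ b) (C : Finset V) :
    2 * b ≤ 2 * C.card + ∑ x ∈ Cᶜ, ((nbh G x ∩ C).card + 2 - C.card) := by
  refine (low_C hb C).trans (Nat.add_le_add_left (sum_le_sum ?_) _)
  intro x hx
  rw [nbh_compl_inter (by simpa using hx)]
  have : (nbh G x ∩ C).card ≤ C.card := card_le_card inter_subset_right
  omega

/-- The pair bound. -/
lemma pair_bound {G : SimpleGraph V} {b : ℕ} (hb : Low Gᶜ b) {u v : V} (huv : u ≠ v) :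
    2 * b ≤ 4 + (nbh G u).card + (nbh G v).card ∧
    (G.Adj u v → 2 * b + 2 ≤ 4 + (nbh G u).card + (nbh G v).card) := by
  have h := low_compl hb {u, v}
  rw [card_pair huv] at h
  have h1 : ∑ x ∈ ({u, v} : Finset V)ᶜ, ((nbh G x ∩ {u, v}).card + 2 - 2) ≤
      ((nbh G u).erase v).card + ((nbh G v).erase u).card := by
    have e : ∀ x, (nbh G x ∩ {u, v}).card + 2 - 2 =
        (if G.Adj x u then 1 else 0) + (if G.Adj x v then 1 else 0) := by
      intro x
      rw [Nat.add_sub_cancel, inter_comm, ← filter_mem_eq_inter, card_filter, sum_pair huv]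
      simp only [mem_nbh]
    rw [sum_congr rfl (fun x _ => e x), sum_add_distrib, ← card_filter, ← card_filter]
    apply Nat.add_le_add
    · apply card_le_card
      intro x hx
      simp only [mem_filter, mem_compl, mem_insert, mem_singleton, not_or] at hx
      rw [mem_erase, mem_nbh]
      exact ⟨hx.1.2, hx.2.symm⟩
    · apply card_le_card
      intro x hx
      simp only [mem_filter, mem_compl, mem_insert, mem_singleton, not_or] at hx
      rw [mem_erase, mem_nbh]
      exact ⟨hx.1.1, hx.2.symm⟩
  constructor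
  · have h2 : ((nbh G u).erase v).card ≤ (nbh G u).card := card_le_card (erase_subset _ _)
    have h3 : ((nbh G v).erase u).card ≤ (nbh G v).card := card_le_card (erase_subset _ _)
    omega
  · intro hadj
    have h2 : ((nbh G u).erase v).card + 1 = (nbh G u).card :=
      card_erase_add_one (mem_nbh.2 hadj)
    have h3 : ((nbh G v).erase u).card + 1 = (nbh G v).card :=
      card_erase_add_one (mem_nbh.2 hadj.symm)
    omega

/-! ### Cuts -/

/-- the size of a cut -/
noncomputable def cut (G : SimpleGraph V) (A : Finset V) : ℕ := ∑ x ∈ A, (nbh G x \ A).card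

lemma notMem_nbh_self (G : SimpleGraph V) (x : V) : x ∉ nbh G x := by
  rw [mem_nbh]; exact G.loopless.irrefl x

lemma cut_insert {G : SimpleGraph V} {A : Finset V} {x : V} (hx : x ∉ A) :
    cut G (insert x A) + (nbh G x ∩ A).card = cut G A + (nbh G x \ A).card := by
  unfold cut
  rw [sum_insert hx]
  have h1 : nbh G x \ insert x A = nbh G x \ A := by
    ext y
    simp only [mem_sdiff, mem_insert, not_or]
    constructor
    · rintro ⟨h1, h2, h3⟩; exact ⟨h1, h3⟩
    · rintro ⟨h1, h3⟩
      exact ⟨h1, fun h => notMem_nbh_self G x (h ▸ h1), h3⟩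
  have h2 : ∀ y ∈ A, (nbh G y \ A).card =
      (nbh G y \ insert x A).card + (if y ∈ nbh G x then 1 else 0) := by
    intro y _
    split_ifs with h
    · have h3 : nbh G y \ A = insert x (nbh G y \ insert x A) := by
        ext z
        simp only [mem_sdiff, mem_insert, not_or]
        constructor
        · rintro ⟨h4, h5⟩
          by_cases hz : z = x
          · exact Or.inl hz
          · exact Or.inr ⟨h4, hz, h5⟩
        · rintro (rfl | ⟨h4, -, h5⟩)
          · exact ⟨mem_nbh.2 (mem_nbh.1 h).symm, hx⟩
          · exact ⟨h4, h5⟩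
      rw [h3, card_insert_of_notMem (by simp)]
    · have h3 : nbh G y \ A = nbh G y \ insert x A := by
        ext z
        simp only [mem_sdiff, mem_insert, not_or]
        constructor
        · rintro ⟨h4, h5⟩
          refine ⟨h4, ?_, h5⟩
          rintro rfl
          exact h (mem_nbh.2 (mem_nbh.1 h4).symm)
        · rintro ⟨h4, -, h5⟩
          exact ⟨h4, h5⟩
      rw [h3, add_zero]
  rw [sum_congr rfl h2, sum_add_distrib, ← card_filter, h1, filter_mem_eq_inter, inter_comm]
  ring

lemma cut_compl (G : SimpleGraph V) (A : Finset V) : cut G Aᶜ = cut G A := by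
  unfold cut
  have h1 : ∀ x, (nbh G x \ A).card = ∑ y ∈ Aᶜ, if G.Adj x y then 1 else 0 := by
    intro x
    rw [← card_filter]
    congr 1
    ext y
    simp only [mem_sdiff, mem_nbh, mem_filter, mem_compl]
    tauto
  have h2 : ∀ x, (nbh G x \ Aᶜ).card = ∑ y ∈ A, if G.Adj x y then 1 else 0 := by
    intro x
    rw [← card_filter]
    congr 1
    ext y
    simp only [mem_sdiff, mem_nbh, mem_filter, mem_compl, not_not]
    tauto
  rw [sum_congr rfl (fun x _ => h1 x), sum_congr rfl (fun x _ => h2 x), sum_comm]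
  apply sum_congr rfl
  intro x _
  apply sum_congr rfl
  intro y _
  simp only [G.adj_comm]

/-- maximum cut -/
def IsMaxCut (G : SimpleGraph V) (A : Finset V) : Prop := ∀ B, cut G B ≤ cut G A

lemma exists_maxCut (G : SimpleGraph V) : ∃ A, IsMaxCut G A := by
  obtain ⟨A, -, hA⟩ := exists_max_image (univ : Finset (Finset V)) (cut G) ⟨∅, mem_univ _⟩
  exact ⟨A, fun B => hA B (mem_univ _)⟩

lemma IsMaxCut.compl {G : SimpleGraph V} {A : Finset V} (h : IsMaxCut G A) : IsMaxCut G Aᶜ := by
  intro B
  rw [cut_compl]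
  exact h B

lemma IsMaxCut.out {G : SimpleGraph V} {A : Finset V} (h : IsMaxCut G A) {x : V} (hx : x ∉ A) :
    (nbh G x \ A).card ≤ (nbh G x ∩ A).card := by
  have := cut_insert (G := G) hx
  have h2 := h (insert x A)
  omega

lemma inter_compl_eq (G : SimpleGraph V) (A : Finset V) (x : V) :
    nbh G x ∩ Aᶜ = nbh G x \ A := by
  ext y; simp

lemma sdiff_compl_eq (G : SimpleGraph V) (A : Finset V) (x : V) :
    nbh G x \ Aᶜ = nbh G x ∩ A := by
  ext y; simp

lemma IsMaxCut.mem {G : SimpleGraph V} {A : Finset V} (h : IsMaxCut G A) {x : V} (hx : x ∈ A) :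
    (nbh G x ∩ A).card ≤ (nbh G x \ A).card := by
  have := h.compl.out (x := x) (by simpa using hx)
  rwa [inter_compl_eq, sdiff_compl_eq] at this

lemma deg_split (G : SimpleGraph V) (A : Finset V) (x : V) :
    (nbh G x ∩ A).card + (nbh G x \ A).card = (nbh G x).card := by
  rw [add_comm]; exact card_sdiff_add_card_inter _ _

/-- flipping a vertex with as many neighbours on both sides -/
lemma IsMaxCut.insert {G : SimpleGraph V} {A : Finset V} (h : IsMaxCut G A) {x : V} (hx : x ∉ A)
    (he : (nbh G x \ A).card = (nbh G x ∩ A).card) : IsMaxCut G (insert x A) := by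
  intro B
  have h1 := cut_insert (G := G) hx
  have h2 := h B
  omega

/-- the vertices of degree two with one neighbour on each side -/
noncomputable def spl (G : SimpleGraph V) (A : Finset V) : Finset V :=
  univ.filter (fun x => (nbh G x).card = 2 ∧ (nbh G x ∩ A).card = 1)

lemma mem_spl {G : SimpleGraph V} {A : Finset V} {x : V} :
    x ∈ spl G A ↔ (nbh G x).card = 2 ∧ (nbh G x ∩ A).card = 1 := by simp [spl]

lemma spl_compl (G : SimpleGraph V) (A : Finset V) : spl G Aᶜ = spl G A := by
  ext x
  rw [mem_spl, mem_spl, inter_compl_eq]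
  have := deg_split G A x
  omega

/-- vertices of degree two are not adjacent, if `b ≥ 4` -/
lemma not_adj_two {G : SimpleGraph V} {b : ℕ} (hb : Low Gᶜ b) (hb4 : 4 ≤ b) {u v : V}
    (hu : (nbh G u).card = 2) (hv : (nbh G v).card = 2) : ¬ G.Adj u v := by
  intro h
  have := (pair_bound hb h.ne).2 h
  omega

lemma maxCut_union_spl {G : SimpleGraph V} {b : ℕ} (hb : Low Gᶜ b) (hb4 : 4 ≤ b) {A : Finset V}
    (h : IsMaxCut G A) (T : Finset V) (hT : T ⊆ spl G A) : IsMaxCut G (A ∪ T) := by
  induction T using Finset.induction_on with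
  | empty => simpa using h
  | insert w T hw ih =>
    have hT' : T ⊆ spl G A := fun x hx => hT (mem_insert_of_mem hx)
    have hw' := mem_spl.1 (hT (mem_insert_self w T))
    have ih' := ih hT'
    by_cases hwA : w ∈ A
    · have : A ∪ Insert.insert w T = A ∪ T := by
        ext x; simp only [mem_union, mem_insert]
        constructor
        · rintro (h | rfl | h)
          · exact Or.inl h
          · exact Or.inl hwA
          · exact Or.inr h
        · rintro (h | h)
          · exact Or.inl h
          · exact Or.inr (Or.inr h)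
      rw [this]; exact ih'
    · rw [union_insert]
      have h1 : nbh G w ∩ (A ∪ T) = nbh G w ∩ A := by
        ext x
        simp only [mem_inter, mem_union]
        constructor
        · rintro ⟨h1, h2 | h2⟩
          · exact ⟨h1, h2⟩
          · exfalso
            exact not_adj_two hb hb4 hw'.1 (mem_spl.1 (hT' h2)).1 (mem_nbh.1 h1)
        · rintro ⟨h1, h2⟩
          exact ⟨h1, Or.inl h2⟩
      have h2 := deg_split G (A ∪ T) w
      apply ih'.insert
      · simp [hwA, hw]
      · rw [h1] at h2 ⊢
        omega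

lemma opt {G : SimpleGraph V} {a b : ℕ} (ha : Low G a) (hb : Low Gᶜ b) (hb4 : 4 ≤ b)
    (hiso : ∀ x, 1 ≤ (nbh G x).card) {A : Finset V} (h : IsMaxCut G A) :
    2 * a ≤ 2 * (Aᶜ \ spl G A).card + 2 * ((spl G A).card / 2) + 1 := by
  set S := spl G A with hS
  have hmax := maxCut_union_spl hb hb4 h S subset_rfl
  have e1 : (A ∪ S)ᶜ = Aᶜ \ S := by
    ext x; simp
  have hC := low_C ha (A ∪ S)ᶜ
  rw [compl_compl, e1] at hC
  -- the contributions
  have hcon : ∀ x ∈ A ∪ S, 2 - (nbh G x ∩ (Aᶜ \ S)).card =
      2 - (nbh G x \ (A ∪ S)).card := by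
    intro x _
    rw [← e1, inter_compl_eq]
  rw [sum_congr rfl hcon] at hC
  by_cases h1 : ∃ u, (nbh G u).card = 1
  · obtain ⟨u, hu⟩ := h1
    have hS0 : S = ∅ := by
      rw [eq_empty_iff_forall_notMem]
      intro x hx
      have hx2 := (mem_spl.1 hx).1
      have hne : u ≠ x := by
        rintro rfl
        omega
      have := (pair_bound hb hne).1
      omega
    have h2 : ∑ x ∈ A ∪ S, (2 - (nbh G x \ (A ∪ S)).card) ≤
        ∑ x ∈ A ∪ S, (if x = u then 1 else 0) := by
      apply sum_le_sum
      intro x hx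
      have h3 := hmax.mem hx
      have h4 := deg_split G (A ∪ S) x
      split_ifs with hxu
      · subst hxu; omega
      · have := (pair_bound hb (u := u) (v := x) (fun h => hxu h.symm)).1
        omega
    have h3 : ∑ x ∈ A ∪ S, (if x = u then 1 else 0) ≤ 1 := by
      rw [sum_ite_eq']
      split_ifs <;> omega
    omega
  · push Not at h1
    have h2 : ∑ x ∈ A ∪ S, (2 - (nbh G x \ (A ∪ S)).card) ≤
        ∑ x ∈ A ∪ S, (if x ∈ S then 1 else 0) := by
      apply sum_le_sum
      intro x hx
      have h3 := hmax.mem hx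
      have h4 := deg_split G (A ∪ S) x
      have h5 := hiso x
      have h6 := h1 x
      split_ifs with hxS
      · omega
      · by_contra hcon2
        apply hxS
        have h7 : (nbh G x).card = 2 := by omega
        rw [hS, mem_spl]
        refine ⟨h7, ?_⟩
        have h8 : nbh G x ∩ (A ∪ S) = nbh G x ∩ A := by
          ext y
          simp only [mem_inter, mem_union]
          constructor
          · rintro ⟨h1, h2 | h2⟩
            · exact ⟨h1, h2⟩
            · exfalso
              exact not_adj_two hb hb4 h7 (mem_spl.1 h2).1 (mem_nbh.1 h1)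
          · rintro ⟨h1, h2⟩
            exact ⟨h1, Or.inl h2⟩
        rw [← h8]
        omega
    have h3 : ∑ x ∈ A ∪ S, (if x ∈ S then 1 else 0) = S.card := by
      rw [← card_filter]
      congr 1
      ext x
      simp only [mem_filter, mem_union]
      tauto
    omega

lemma half {G : SimpleGraph V} {a b : ℕ} (ha : Low G a) (hb : Low Gᶜ b) (hb4 : 4 ≤ b)
    (hiso : ∀ x, 1 ≤ (nbh G x).card) : 2 * a ≤ Fintype.card V := by
  obtain ⟨A, hA⟩ := exists_maxCut G
  have h1 := opt ha hb hb4 hiso hA
  have h2 := opt ha hb hb4 hiso hA.compl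
  rw [spl_compl, compl_compl] at h2
  set S := spl G A
  have h3 : (Aᶜ \ S).card + (A \ S).card + S.card = Fintype.card V := by
    have e1 : (Aᶜ \ S) ∪ (A \ S) = Sᶜ := by
      ext x
      simp only [mem_union, mem_sdiff, mem_compl]
      tauto
    have e2 : Disjoint (Aᶜ \ S) (A \ S) := by
      rw [disjoint_left]
      intro x hx hx'
      simp only [mem_sdiff, mem_compl] at hx hx'
      exact hx.1 hx'.1
    rw [← card_union_of_disjoint e2, e1, card_compl]
    have := card_le_univ S
    omega
  omega

end Pool.Agent.U439.OG
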