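import Pool.Agent.U439.OG.Sound

/-!
# Large `n`
-/

set_option autoImplicit false
set_option linter.unusedSectionVars false

namespace Pool.Agent.U439.OG

open Finset Classical

lemma psi_le (n d : ℕ) (hd : d ≤ n) : psi n d ≤ d ^ 3 * (2 * n - d) := by
  have h1 : psi n d = (d * (d - 1) * (d - 2)) * ((d - 3) + 2 * (n - 1 - d)) := by
    unfold psi; ring
  rw [h1]
  apply Nat.mul_le_mul
  · rw [pow_succ, pow_two]
    exact Nat.mul_le_mul (Nat.mul_le_mul le_rfl (Nat.sub_le _ _)) (Nat.sub_le _ _)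
  · omega

lemma cube_mono {N e t : ℝ} (he : 0 ≤ e) (het : e ≤ t) (htN : t ≤ N) :
    e ^ 3 * (2 * N - e) ≤ t ^ 3 * (2 * N - t) := by
  have h1 : 0 ≤ t - e := by linarith
  have ht : 0 ≤ t := he.trans het
  have h2 : t ^ 3 * (2 * N - t) - e ^ 3 * (2 * N - e) =
      (t - e) * ((t ^ 2 + t * e + e ^ 2) * (2 * N - t) - e ^ 3) := by ring
  have h3 : e ^ 3 ≤ (t ^ 2 + t * e + e ^ 2) * (2 * N - t) := by
    have h4 : t ≤ 2 * N - t := by linarith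
    have h5 : e ^ 3 ≤ e ^ 2 * t := by nlinarith [sq_nonneg e]
    have h6 : e ^ 2 * t ≤ (t ^ 2 + t * e + e ^ 2) * t := by
      nlinarith [sq_nonneg e, sq_nonneg t, mul_nonneg ht he, mul_nonneg (mul_nonneg ht he) ht,
        mul_nonneg (sq_nonneg t) ht]
    have h7 : (t ^ 2 + t * e + e ^ 2) * t ≤ (t ^ 2 + t * e + e ^ 2) * (2 * N - t) := by
      apply mul_le_mul_of_nonneg_left h4
      positivity
    linarith
  have : 0 ≤ (t - e) * ((t ^ 2 + t * e + e ^ 2) * (2 * N - t) - e ^ 3) :=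
    mul_nonneg h1 (by linarith)
  linarith

lemma wgt_le {n d : ℕ} (hd : d < n) : (wgt 2 1 n d : ℝ) ≤
    (n : ℝ) ^ 4 - 2 * d * (n : ℝ) ^ 3 + 6 * (d : ℝ) ^ 3 * n - 3 * (d : ℝ) ^ 4 := by
  have h1 : ((psi n d : ℕ) : ℝ) ≤ (d : ℝ) ^ 3 * (2 * n - d) := by
    have h := psi_le n d hd.le
    have h2 : ((d ^ 3 * (2 * n - d) : ℕ) : ℝ) = (d : ℝ) ^ 3 * (2 * n - d) := by
      rw [Nat.cast_mul, Nat.cast_sub (by omega)]
      push_cast
      ring
    rw [← h2]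
    exact_mod_cast h
  have h2 : ((psi n (n - 1 - d) : ℕ) : ℝ) ≤ ((n : ℝ) - d) ^ 3 * (n + d) := by
    have h := psi_le n (n - 1 - d) (by omega)
    have h3 : (((n - 1 - d) ^ 3 * (2 * n - (n - 1 - d)) : ℕ) : ℝ) =
        ((n : ℝ) - 1 - d) ^ 3 * (2 * n - (n - 1 - d)) := by
      rw [Nat.cast_mul, Nat.cast_sub (by omega), Nat.cast_pow, Nat.cast_sub (by omega),
        Nat.cast_sub (by omega)]
      push_cast
      ring
    have h4 : ((psi n (n - 1 - d) : ℕ) : ℝ) ≤ ((n : ℝ) - 1 - d) ^ 3 * (2 * n - (n - 1 - d)) := by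
      rw [← h3]
      exact_mod_cast h
    have h5 : (0 : ℝ) ≤ (n : ℝ) - 1 - d := by
      have : (d : ℝ) + 1 ≤ n := by exact_mod_cast hd
      linarith
    have h6 := cube_mono (N := (n : ℝ)) (e := (n : ℝ) - 1 - d) (t := (n : ℝ) - d) h5
      (by linarith) (by have : (0 : ℝ) ≤ d := Nat.cast_nonneg d; linarith)
    have h7 : (2 * (n : ℝ) - ((n : ℝ) - d)) = n + d := by ring
    rw [h7] at h6
    linarith
  unfold wgt
  push_cast
  nlinarith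

lemma psi_crude {n t : ℕ} (ht : t ≤ n) : psi n t ≤ n ^ 4 := by
  have h1 : ((psi n t : ℕ) : ℝ) ≤ (t : ℝ) ^ 3 * (2 * n - t) := by
    have h := psi_le n t ht
    have h2 : ((t ^ 3 * (2 * n - t) : ℕ) : ℝ) = (t : ℝ) ^ 3 * (2 * n - t) := by
      rw [Nat.cast_mul, Nat.cast_sub (by omega)]
      push_cast
      ring
    rw [← h2]
    exact_mod_cast h
  have h2 := cube_mono (N := (n : ℝ)) (e := (t : ℝ)) (t := (n : ℝ)) (Nat.cast_nonneg t)
    (by exact_mod_cast ht) le_rfl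
  have h3 : (n : ℝ) ^ 3 * (2 * n - n) = (n : ℝ) ^ 4 := by ring
  rw [h3] at h2
  exact_mod_cast h1.trans h2

lemma wgt_crude {n d : ℕ} (hd : d < n) : wgt 2 1 n d ≤ 3 * n ^ 4 := by
  have h1 := psi_crude hd.le
  have h2 : psi n (n - 1 - d) ≤ n ^ 4 := psi_crude (by omega)
  unfold wgt
  omega

/-- the case `D ≤ N / 2` -/
lemma region1 {N D : ℝ} (hN : 126 ≤ N) (h1 : N / 6 ≤ D) (h2 : D ≤ N / 2) :
    N ^ 4 - 2 * D * N ^ 3 + 6 * D ^ 3 * N - 3 * D ^ 4 + 6 * N ^ 3 <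
      (5 * N / 6 - 16 / 3) * (N ^ 3 - 6 * N ^ 2) := by
  have hN0 : 0 < N := by linarith
  have hD0 : 0 < D := by linarith
  have hid : - N ^ 4 / 6 + 2 * D * N ^ 3 - 6 * D ^ 3 * N + 3 * D ^ 4 =
      (D - N / 6) * (N / 2 - D) * (35 * N ^ 2 / 12 + 4 * D * N - 3 * D ^ 2) +
        7 / 18 * D * N ^ 3 + 11 / 144 * N ^ 4 := by ring
  have hq : 0 ≤ 35 * N ^ 2 / 12 + 4 * D * N - 3 * D ^ 2 := by nlinarith
  have hp : 0 ≤ (D - N / 6) * (N / 2 - D) * (35 * N ^ 2 / 12 + 4 * D * N - 3 * D ^ 2) :=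
    mul_nonneg (mul_nonneg (by linarith) (by linarith)) hq
  have h3 : 0 < N ^ 3 := by positivity
  have h4 : N / 6 * N ^ 3 ≤ D * N ^ 3 := mul_le_mul_of_nonneg_right h1 h3.le
  have h5 : 126 * N ^ 3 ≤ N ^ 4 := by
    have : N ^ 4 = N * N ^ 3 := by ring
    rw [this]
    exact mul_le_mul_of_nonneg_right hN h3.le
  have h6 : 0 < N ^ 2 := by positivity
  have h7 : (5 * N / 6 - 16 / 3) * (N ^ 3 - 6 * N ^ 2) =
      5 / 6 * N ^ 4 - 31 / 3 * N ^ 3 + 32 * N ^ 2 := by ring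
  have h8 : N / 6 * N ^ 3 = N ^ 4 / 6 := by ring
  rw [h7]
  rw [h8] at h4
  linarith

/-- the case `N / 2 ≤ D` -/
lemma region2 {N D : ℝ} (hN : 126 ≤ N) (h1 : N / 2 ≤ D) (h2 : D ≤ 2 * N / 3) :
    N ^ 4 - 2 * D * N ^ 3 + 6 * D ^ 3 * N - 3 * D ^ 4 + 6 * N ^ 3 <
      (N / 3 + D - 19 / 3) * (N ^ 3 - 6 * N ^ 2) := by
  have hN0 : 0 < N := by linarith
  have hD0 : 0 < D := by linarith
  have hid : - (2 / 3) * N ^ 4 + 3 * D * N ^ 3 - 6 * D ^ 3 * N + 3 * D ^ 4 =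
      (D - N / 2) * (2 * N / 3 - D) * (47 * N ^ 2 / 12 + 5 / 2 * D * N - 3 * D ^ 2) +
        23 / 36 * N ^ 4 - 53 / 72 * D * N ^ 3 := by ring
  have hq : 0 ≤ 47 * N ^ 2 / 12 + 5 / 2 * D * N - 3 * D ^ 2 := by nlinarith
  have hp : 0 ≤ (D - N / 2) * (2 * N / 3 - D) * (47 * N ^ 2 / 12 + 5 / 2 * D * N - 3 * D ^ 2) :=
    mul_nonneg (mul_nonneg (by linarith) (by linarith)) hq
  have h3 : 0 < N ^ 3 := by positivity
  have h4 : D * N ^ 3 ≤ 2 * N / 3 * N ^ 3 := mul_le_mul_of_nonneg_right h2 h3.le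
  have h5 : 126 * N ^ 3 ≤ N ^ 4 := by
    have : N ^ 4 = N * N ^ 3 := by ring
    rw [this]
    exact mul_le_mul_of_nonneg_right hN h3.le
  have h6 : 0 < N ^ 2 := by positivity
  have h7 : (N / 3 + D - 19 / 3) * (N ^ 3 - 6 * N ^ 2) =
      N ^ 4 / 3 + D * N ^ 3 - 25 / 3 * N ^ 3 - 6 * (D * N ^ 2) + 38 * N ^ 2 := by ring
  have h8 : 2 * N / 3 * N ^ 3 = 2 / 3 * N ^ 4 := by ring
  have h9 : D * N ^ 2 ≤ 2 * N / 3 * N ^ 2 := mul_le_mul_of_nonneg_right h2 h6.le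
  have h10 : 2 * N / 3 * N ^ 2 = 2 / 3 * N ^ 3 := by ring
  rw [h7]
  rw [h8] at h4
  rw [h10] at h9
  linarith

lemma real_ineq {N D A B : ℝ} (hN : 126 ≤ N) (h1 : B - 2 ≤ D) (h2 : D + A ≤ N + 1)
    (h3 : 2 * N + 10 ≤ 3 * (A + B)) (h4 : 2 * A ≤ N) (h5 : B ≤ A) :
    N * (N ^ 4 - 2 * D * N ^ 3 + 6 * D ^ 3 * N - 3 * D ^ 4) + 6 * N ^ 4 <
      (2 * (B - 4) + (A - 4)) * (N * (N - 1) * (N - 2) * (N - 3)) := by
  have hN0 : 0 < N := by linarith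
  have key : N ^ 4 - 2 * D * N ^ 3 + 6 * D ^ 3 * N - 3 * D ^ 4 + 6 * N ^ 3 <
      (2 * (B - 4) + (A - 4)) * (N ^ 3 - 6 * N ^ 2) := by
    have hp : 0 < N ^ 3 - 6 * N ^ 2 := by
      have : N ^ 3 - 6 * N ^ 2 = N ^ 2 * (N - 6) := by ring
      rw [this]
      exact mul_pos (by positivity) (by linarith)
    rcases le_total D (N / 2) with h | h
    · refine (region1 hN (by linarith) h).trans_le ?_
      exact mul_le_mul_of_nonneg_right (by linarith) hp.le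
    · refine (region2 hN h (by linarith)).trans_le ?_
      exact mul_le_mul_of_nonneg_right (by linarith) hp.le
  have hc : 0 ≤ 2 * (B - 4) + (A - 4) := by linarith
  have h6 : (2 * (B - 4) + (A - 4)) * (N ^ 3 - 6 * N ^ 2) ≤
      (2 * (B - 4) + (A - 4)) * ((N - 1) * (N - 2) * (N - 3)) := by
    apply mul_le_mul_of_nonneg_left _ hc
    nlinarith
  have h7 := mul_lt_mul_of_pos_left (key.trans_le h6) hN0
  calc _ = N * (N ^ 4 - 2 * D * N ^ 3 + 6 * D ^ 3 * N - 3 * D ^ 4 + 6 * N ^ 3) := by ring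
    _ < _ := h7
    _ = _ := by ring

variable {V : Type} [Fintype V]

lemma large_false {G : SimpleGraph V} {a b : ℕ} (ha : Low G a) (hb : Low Gᶜ b)
    (h2a : 2 * a ≤ Fintype.card V) (hba : b ≤ a)
    (hs : a + b = (2 * Fintype.card V + 12) / 3) (hn : 126 ≤ Fintype.card V) : False := by
  have ha4 : 4 ≤ a := by omega
  have hb4 : 4 ≤ b := by omega
  apply sum_false ha hb ha4 hb4 (by omega) (by omega)
  intro mL mH hL hH
  refine ⟨2, 1, 3 * Fintype.card V ^ 4, 3 * Fintype.card V ^ 4, _, fun d hd => wgt_crude (by omega),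
    fun d hd hd' => wgt_crude hd, le_rfl, fun d h1 h2 => ?_⟩
  set n := Fintype.card V with hnn
  have hd : d < n := by omega
  have h3 := real_ineq (N := (n : ℝ)) (D := (d : ℝ)) (A := (a : ℝ)) (B := (b : ℝ))
    (by exact_mod_cast hn) (by
      have : b ≤ d + 2 := by omega
      have : (b : ℝ) ≤ d + 2 := by exact_mod_cast this
      linarith) (by
      have : d + a ≤ n + 1 := by omega
      exact_mod_cast this) (by
      have : 2 * n + 10 ≤ 3 * (a + b) := by omega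
      exact_mod_cast this) (by exact_mod_cast h2a) (by exact_mod_cast hba)
  have h4 := wgt_le hd
  have h5 : (n : ℝ) * (wgt 2 1 n d : ℝ) ≤
      n * ((n : ℝ) ^ 4 - 2 * d * (n : ℝ) ^ 3 + 6 * (d : ℝ) ^ 3 * n - 3 * (d : ℝ) ^ 4) :=
    mul_le_mul_of_nonneg_left h4 (Nat.cast_nonneg n)
  have h6 : ((n * wgt 2 1 n d + 6 * n ^ 4 : ℕ) : ℝ) <
      (((2 * (b - 4) + 1 * (a - 4)) * (n * (n - 1) * (n - 2) * (n - 3)) : ℕ) : ℝ) := by
    rw [Nat.cast_mul, Nat.cast_mul, Nat.cast_mul, Nat.cast_mul, Nat.cast_add, Nat.cast_add,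
      Nat.cast_mul, Nat.cast_mul, Nat.cast_mul, Nat.cast_mul, Nat.cast_sub hb4, Nat.cast_sub ha4,
      Nat.cast_sub (show 1 ≤ n by omega), Nat.cast_sub (show 2 ≤ n by omega),
      Nat.cast_sub (show 3 ≤ n by omega)]
    push_cast
    linarith
  have h7 : n * wgt 2 1 n d + 6 * n ^ 4 <
      (2 * (b - 4) + 1 * (a - 4)) * (n * (n - 1) * (n - 2) * (n - 3)) := by exact_mod_cast h6
  have h8 : (n - mL - mH) * wgt 2 1 n d ≤ n * wgt 2 1 n d :=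
    Nat.mul_le_mul_right _ (by omega)
  have h9 : mL * (3 * n ^ 4) ≤ 1 * (3 * n ^ 4) := Nat.mul_le_mul_right _ hL
  have h10 : mH * (3 * n ^ 4) ≤ 1 * (3 * n ^ 4) := Nat.mul_le_mul_right _ hH
  omega

end Pool.Agent.U439.OG
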