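import Pool.Agent.U439.OG.Check

/-!
# From the numerical inequalities to the theorem
-/

set_option autoImplicit false
set_option linter.unusedSectionVars false

namespace Pool.Agent.U439.OG

open Finset Classical

lemma le_maxLow (p q n k d : ℕ) (h : d < k) : wgt p q n d ≤ maxLow p q n k := by
  induction k with
  | zero => omega
  | succ k ih =>
    unfold maxLow
    rcases Nat.lt_or_ge d k with h1 | h1
    · exact (ih h1).trans (le_max_left _ _)
    · have : d = k := by omega
      subst this
      exact le_max_right _ _

lemma le_maxHigh (p q n k e : ℕ) (h : e < k) : wgt p q n (n - 1 - e) ≤ maxHigh p q n k := by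
  induction k with
  | zero => omega
  | succ k ih =>
    unfold maxHigh
    rcases Nat.lt_or_ge e k with h1 | h1
    · exact (ih h1).trans (le_max_left _ _)
    · have : e = k := by omega
      subst this
      exact le_max_right _ _

lemma allMid_spec {p q n lo hi c E R D : ℕ} (h : allMid p q n lo hi c E R D = true) {d : ℕ}
    (hd : d < D) (h1 : lo ≤ d) (h2 : d + hi < n) : c * wgt p q n d + E < R := by
  induction D with
  | zero => omega
  | succ D ih =>
    unfold allMid at h
    rw [Bool.and_eq_true, Bool.or_eq_true, Bool.or_eq_true] at h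
    rcases Nat.lt_or_ge d D with h3 | h3
    · exact ih h.1 h3
    · have : d = D := by omega
      subst this
      rcases h.2 with (h4 | h4) | h4
      · have := Nat.le_of_ble_eq_true h4; omega
      · have := Nat.le_of_ble_eq_true h4; omega
      · have := Nat.le_of_ble_eq_true h4; omega

variable {V : Type} [Fintype V]

/-- The common part of both cases. If at most one vertex has degree less than `b - 2` and at most
one has degree greater than `n + 1 - a`, then the sum of the weights is less than it should be. -/
lemma sum_false {G : SimpleGraph V} {a b : ℕ} (ha : Low G a) (hb : Low Gᶜ b) (ha4 : 4 ≤ a)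
    (hb4 : 4 ≤ b) (hab : a + b ≤ Fintype.card V) (h11 : 11 ≤ Fintype.card V)
    (h : ∀ mL mH : ℕ, mL ≤ 1 → mH ≤ 1 → ∃ p q EL EH R : ℕ,
      (∀ d, d < b - 2 → wgt p q (Fintype.card V) d ≤ EL) ∧
      (∀ d, d < Fintype.card V → Fintype.card V - 1 - d < a - 2 →
        wgt p q (Fintype.card V) d ≤ EH) ∧
      R ≤ (p * (b - 4) + q * (a - 4)) * (Fintype.card V * (Fintype.card V - 1) *
        (Fintype.card V - 2) * (Fintype.card V - 3)) ∧
      (∀ d, b - 2 + mL ≤ d → d + (a - 2) + mH < Fintype.card V →
        (Fintype.card V - mL - mH) * wgt p q (Fintype.card V) d + (mL * EL + mH * EH) < R)) :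
    False := by
  set n := Fintype.card V with hn
  set dg : V → ℕ := fun x => (nbh G x).card with hdg
  have hdeg : ∀ x, dg x < n := by
    intro x
    have := deg_compl G x
    simp only [hdg]
    omega
  have ha' : Low Gᶜᶜ a := by rw [compl_compl]; exact ha
  -- the exceptional vertices
  set SL := univ.filter (fun x => dg x < b - 2) with hSL
  set SH := univ.filter (fun x => n - 1 - dg x < a - 2) with hSH
  set SM := univ.filter (fun x => b - 2 ≤ dg x ∧ a - 2 ≤ n - 1 - dg x) with hSM
  have hSLc : SL.card ≤ 1 := by
    rw [card_le_one]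
    intro x hx y hy
    by_contra hne
    rw [hSL, mem_filter] at hx hy
    have := (pair_bound hb hne).1
    simp only [hdg] at hx hy
    omega
  have hSHc : SH.card ≤ 1 := by
    rw [card_le_one]
    intro x hx y hy
    by_contra hne
    rw [hSH, mem_filter] at hx hy
    have h1 := (pair_bound ha' hne).1
    have h2 := deg_compl G x
    have h3 := deg_compl G y
    simp only [hdg] at hx hy
    omega
  have hdis : Disjoint SL SH := by
    rw [disjoint_left]
    intro x hx hy
    rw [hSL, mem_filter] at hx
    rw [hSH, mem_filter] at hy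
    omega
  have hdis2 : Disjoint (SL ∪ SH) SM := by
    rw [disjoint_left]
    intro x hx hy
    rw [mem_union, hSL, mem_filter, hSH, mem_filter] at hx
    rw [hSM, mem_filter] at hy
    omega
  have huni : (SL ∪ SH) ∪ SM = univ := by
    ext x
    simp only [mem_union, hSL, hSH, hSM, mem_filter, mem_univ, true_and, iff_true]
    omega
  have hcard : SL.card + SH.card + SM.card = n := by
    rw [← card_union_of_disjoint hdis, ← card_union_of_disjoint hdis2, huni, card_univ]
  obtain ⟨p, q, EL, EH, R, h1, h2, h3, h4⟩ := h SL.card SH.card hSLc hSHc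
  have hsum := count_wgt ha hb ha4 hb4 p q
  rw [← hn] at hsum
  have hsplit : ∑ x : V, wgt p q n (nbh G x).card = ∑ x ∈ SL, wgt p q n (dg x) +
      ∑ x ∈ SH, wgt p q n (dg x) + ∑ x ∈ SM, wgt p q n (dg x) := by
    rw [← sum_union hdis, ← sum_union hdis2, huni]
  have hL : ∑ x ∈ SL, wgt p q n (dg x) ≤ SL.card * EL := by
    rw [← smul_eq_mul]
    apply sum_le_card_nsmul
    intro x hx
    rw [hSL, mem_filter] at hx
    exact h1 _ hx.2
  have hH : ∑ x ∈ SH, wgt p q n (dg x) ≤ SH.card * EH := by
    rw [← smul_eq_mul]
    apply sum_le_card_nsmul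
    intro x hx
    rw [hSH, mem_filter] at hx
    exact h2 _ (hdeg x) hx.2
  -- the other vertices
  have hM : ∀ x ∈ SM, SM.card * wgt p q n (dg x) + (SL.card * EL + SH.card * EH) + 1 ≤ R := by
    intro x hx
    rw [hSM, mem_filter] at hx
    have e : n - SL.card - SH.card = SM.card := by omega
    have h5 := h4 (dg x) ?_ ?_
    · rw [e] at h5; omega
    · by_cases h0 : SL.card = 0
      · omega
      · obtain ⟨u, hu⟩ := card_pos.1 (Nat.pos_of_ne_zero h0)
        rw [hSL, mem_filter] at hu
        have hne : u ≠ x := by
          rintro rfl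
          omega
        have := (pair_bound hb hne).1
        simp only [hdg] at hu hx ⊢
        omega
    · by_cases h0 : SH.card = 0
      · have := hdeg x
        omega
      · obtain ⟨u, hu⟩ := card_pos.1 (Nat.pos_of_ne_zero h0)
        rw [hSH, mem_filter] at hu
        have hne : u ≠ x := by
          rintro rfl
          omega
        have h6 := (pair_bound ha' hne).1
        have h7 := deg_compl G x
        have h8 := deg_compl G u
        simp only [hdg] at hu hx ⊢
        omega
  have hMpos : 0 < SM.card := by omega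
  have hMs : SM.card * ∑ x ∈ SM, wgt p q n (dg x) + SM.card *
      (SL.card * EL + SH.card * EH) + SM.card ≤ SM.card * R := by
    calc SM.card * ∑ x ∈ SM, wgt p q n (dg x) + SM.card *
          (SL.card * EL + SH.card * EH) + SM.card
        = ∑ x ∈ SM, (SM.card * wgt p q n (dg x) + (SL.card * EL + SH.card * EH) + 1) := by
          rw [sum_add_distrib, sum_add_distrib, ← mul_sum, sum_const, sum_const, smul_eq_mul,
            smul_eq_mul, mul_one]
      _ ≤ ∑ _x ∈ SM, R := sum_le_sum hM
      _ = SM.card * R := by rw [sum_const, smul_eq_mul]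
  have hMs2 : ∑ x ∈ SM, wgt p q n (dg x) + (SL.card * EL + SH.card * EH) + 1 ≤ R := by
    by_contra hcon
    push Not at hcon
    have : SM.card * R < SM.card * (∑ x ∈ SM, wgt p q n (dg x) +
        (SL.card * EL + SH.card * EH) + 1) := Nat.mul_lt_mul_of_pos_left hcon hMpos
    rw [Nat.mul_add, Nat.mul_add] at this
    omega
  rw [hsplit] at hsum
  omega

lemma chk_false {G : SimpleGraph V} {a b : ℕ} (ha : Low G a) (hb : Low Gᶜ b) (ha4 : 4 ≤ a)
    (hb4 : 4 ≤ b) (hab : a + b ≤ Fintype.card V) (h11 : 11 ≤ Fintype.card V)
    (h : ∀ mL mH : ℕ, mL ≤ 1 → mH ≤ 1 → chkAny (Fintype.card V) a b mL mH = true) : False := by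
  apply sum_false ha hb ha4 hb4 hab h11
  intro mL mH hL hH
  have key : ∀ p q : ℕ, chk p q (Fintype.card V) a b mL mH = true → ∃ p q EL EH R : ℕ,
      (∀ d, d < b - 2 → wgt p q (Fintype.card V) d ≤ EL) ∧
      (∀ d, d < Fintype.card V → Fintype.card V - 1 - d < a - 2 →
        wgt p q (Fintype.card V) d ≤ EH) ∧
      R ≤ (p * (b - 4) + q * (a - 4)) * (Fintype.card V * (Fintype.card V - 1) *
        (Fintype.card V - 2) * (Fintype.card V - 3)) ∧
      (∀ d, b - 2 + mL ≤ d → d + (a - 2) + mH < Fintype.card V →
        (Fintype.card V - mL - mH) * wgt p q (Fintype.card V) d + (mL * EL + mH * EH) < R) := by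
    intro p q hc
    refine ⟨p, q, maxLow p q (Fintype.card V) (b - 2), maxHigh p q (Fintype.card V) (a - 2), _,
      fun d hd => le_maxLow _ _ _ _ _ hd, fun d hd hd' => ?_, le_rfl, fun d h1 h2 => ?_⟩
    · have := le_maxHigh p q (Fintype.card V) (a - 2) (Fintype.card V - 1 - d) hd'
      rwa [show Fintype.card V - 1 - (Fintype.card V - 1 - d) = d by omega] at this
    · unfold chk at hc
      exact allMid_spec hc (by omega) h1 (by omega)
  have hc := h mL mH hL hH
  unfold chkAny at hc
  rw [Bool.or_eq_true, Bool.or_eq_true] at hc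
  rcases hc with (hc | hc) | hc
  · exact key _ _ hc
  · exact key _ _ hc
  · exact key _ _ hc

lemma chkPairs_spec {n s A : ℕ} (h : chkPairs n s A = true) {a : ℕ} (ha : a < A)
    (has : s ≤ 2 * a) : ∀ mL mH : ℕ, mL ≤ 1 → mH ≤ 1 → chkAny n a (s - a) mL mH = true := by
  induction A with
  | zero => omega
  | succ A ih =>
    unfold chkPairs at h
    rw [Bool.and_eq_true] at h
    rcases Nat.lt_or_ge a A with h1 | h1
    · exact ih h.1 h1
    · have : a = A := by omega
      subst this
      have h2 := h.2
      rw [Bool.or_eq_true] at h2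
      rcases h2 with h2 | h2
      · have := Nat.le_of_ble_eq_true h2
        omega
      · simp only [Bool.and_eq_true] at h2
        intro mL mH hL hH
        have hL' : mL = 0 ∨ mL = 1 := by omega
        have hH' : mH = 0 ∨ mH = 1 := by omega
        rcases hL' with rfl | rfl <;> rcases hH' with rfl | rfl
        · exact h2.1.1.1
        · exact h2.1.1.2
        · exact h2.1.2
        · exact h2.2

lemma chkUpTo_spec {N : ℕ} (h : chkUpTo N = true) {n : ℕ} (hn : n < N) (h11 : 11 ≤ n) :
    chkPairs n ((2 * n + 12) / 3) (n / 2 + 1) = true := by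
  induction N with
  | zero => omega
  | succ N ih =>
    unfold chkUpTo at h
    rw [Bool.and_eq_true, Bool.or_eq_true] at h
    rcases Nat.lt_or_ge n N with h1 | h1
    · exact ih h.1 h1
    · have : n = N := by omega
      subst this
      rcases h.2 with h2 | h2
      · have := Nat.le_of_ble_eq_true h2
        omega
      · exact h2

/-- small `n` -/
lemma small_false {G : SimpleGraph V} {a b : ℕ} (ha : Low G a) (hb : Low Gᶜ b)
    (h2a : 2 * a ≤ Fintype.card V) (hba : b ≤ a) (hs : a + b = (2 * Fintype.card V + 12) / 3)
    (h11 : 11 ≤ Fintype.card V) (h125 : Fintype.card V < 126) : False := by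
  have h1 := chkUpTo_spec chk_all h125 h11
  have h2 := chkPairs_spec h1 (a := a) (by omega) (by omega)
  have h3 : (2 * Fintype.card V + 12) / 3 - a = b := by omega
  rw [h3] at h2
  exact chk_false ha hb (by omega) (by omega) (by omega) h11 h2

end Pool.Agent.U439.OG
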