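import Pool.Agent.U439.OG.Half

/-!
# Graphs with ten vertices
-/

set_option autoImplicit false
set_option linter.unusedSectionVars false

namespace Pool.Agent.U439.OG

open Finset Classical

variable {V : Type} [Fintype V]

lemma deg_compl (G : SimpleGraph V) (x : V) :
    (nbh Gᶜ x).card + (nbh G x).card + 1 = Fintype.card V := by
  have h1 : nbh Gᶜ x = (insert x (nbh G x))ᶜ := by
    ext y
    simp only [mem_nbh, SimpleGraph.compl_adj, mem_compl, mem_insert, not_or]
    constructor
    · rintro ⟨h1, h2⟩; exact ⟨fun h => h1 h.symm, h2⟩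
    · rintro ⟨h1, h2⟩; exact ⟨fun h => h1 h.symm, h2⟩
  rw [h1, card_compl, card_insert_of_notMem (notMem_nbh_self G x)]
  have := card_le_univ (insert x (nbh G x))
  rw [card_insert_of_notMem (notMem_nbh_self G x)] at this
  omega

section ten

variable {G : SimpleGraph V} (ha : Low G 5) (hb : Low Gᶜ 5) (hn : Fintype.card V = 10)
  (hd : ∀ x, 2 ≤ (nbh G x).card)

include ha hb hn hd

lemma ten_card {A : Finset V} (h : IsMaxCut G A) : A.card = 5 := by
  have key : ∀ A : Finset V, IsMaxCut G A → 5 ≤ A.card := by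
    intro A h
    have hC := low_C ha A
    have hle : ∀ x ∈ Aᶜ, 2 - (nbh G x ∩ A).card ≤ 1 ∧
        (2 - (nbh G x ∩ A).card ≠ 0 → (nbh G x).card = 2) := by
      intro x hx
      have h1 := h.out (x := x) (by simpa using hx)
      have h2 := deg_split G A x
      have h3 := hd x
      omega
    have hs : ∑ x ∈ Aᶜ, (2 - (nbh G x ∩ A).card) ≤ 1 := by
      by_cases hu : ∃ u ∈ Aᶜ, 2 - (nbh G u ∩ A).card ≠ 0
      · obtain ⟨u, hu, hu0⟩ := hu
        have hu2 := (hle u hu).2 hu0
        calc ∑ x ∈ Aᶜ, (2 - (nbh G x ∩ A).card) ≤ ∑ x ∈ Aᶜ, (if x = u then 1 else 0) := by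
              apply sum_le_sum
              intro x hx
              split_ifs with hxu
              · exact (hle x hx).1
              · by_contra hcon
                have h1 := (hle x hx).2 (by omega)
                have := (pair_bound hb (u := x) (v := u) hxu).1
                omega
          _ ≤ 1 := by
              rw [sum_ite_eq']
              split_ifs
              omega
      · push Not at hu
        rw [sum_eq_zero hu]
        omega
    omega
  have h1 := key A h
  have h2 := key Aᶜ h.compl
  rw [card_compl, hn] at h2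
  omega

lemma ten_strict {A : Finset V} (h : IsMaxCut G A) {x : V} (hx : x ∉ A) :
    (nbh G x \ A).card < (nbh G x ∩ A).card := by
  by_contra hcon
  have h1 := h.out hx
  have h2 := h.insert hx (by omega)
  have h3 := ten_card ha hb hn hd h2
  rw [card_insert_of_notMem hx, ten_card ha hb hn hd h] at h3
  omega

lemma ten_erase {A : Finset V} (h : IsMaxCut G A) {x : V} (hx : x ∈ A)
    (hy : ∀ y ∈ Aᶜ, G.Adj x y → 3 ≤ (nbh G y ∩ A).card) : (nbh G x ∩ A).card = 0 := by
  have hC := low_C ha (A.erase x)
  have e1 : (A.erase x)ᶜ = insert x Aᶜ := by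
    ext y
    simp only [mem_compl, mem_erase, mem_insert, not_and_or, not_not]
  rw [e1, sum_insert (by simpa using hx), card_erase_of_mem hx, ten_card ha hb hn hd h] at hC
  have e2 : nbh G x ∩ A.erase x = nbh G x ∩ A := by
    ext y
    simp only [mem_inter, mem_erase]
    constructor
    · rintro ⟨h1, -, h2⟩; exact ⟨h1, h2⟩
    · rintro ⟨h1, h2⟩
      exact ⟨h1, fun h => notMem_nbh_self G x (h ▸ h1), h2⟩
  have e3 : ∑ y ∈ Aᶜ, (2 - (nbh G y ∩ A.erase x).card) = 0 := by
    apply sum_eq_zero
    intro y hyA
    have h1 := ten_strict ha hb hn hd h (x := y) (by simpa using hyA)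
    have h2 := deg_split G A y
    have h3 := hd y
    by_cases hadj : G.Adj x y
    · have h4 := hy y hyA hadj
      have h5 : (nbh G y ∩ A).card ≤ (nbh G y ∩ A.erase x).card + 1 := by
        have : nbh G y ∩ A ⊆ insert x (nbh G y ∩ A.erase x) := by
          intro z hz
          simp only [mem_inter, mem_insert, mem_erase] at hz ⊢
          by_cases hzx : z = x
          · exact Or.inl hzx
          · exact Or.inr ⟨hz.1, hzx, hz.2⟩
        exact (card_le_card this).trans (card_insert_le _ _)
      omega
    · have h5 : nbh G y ∩ A.erase x = nbh G y ∩ A := by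
        ext z
        simp only [mem_inter, mem_erase]
        constructor
        · rintro ⟨h1, -, h2⟩; exact ⟨h1, h2⟩
        · rintro ⟨h1, h2⟩
          refine ⟨h1, ?_, h2⟩
          rintro rfl
          exact hadj (mem_nbh.1 h1).symm
      rw [h5]
      omega
  rw [e2, e3] at hC
  omega

lemma ten_three {A : Finset V} (h : IsMaxCut G A) {x : V} (hx : x ∈ A) :
    3 ≤ (nbh G x \ A).card ∨ (nbh G x).card = 2 := by
  by_contra hcon
  push Not at hcon
  have h1 := ten_strict ha hb hn hd h.compl (x := x) (by simpa using hx)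
  rw [inter_compl_eq, sdiff_compl_eq] at h1
  have h2 := deg_split G A x
  have h3 := hd x
  have h4 := ten_erase ha hb hn hd h hx ?_
  · omega
  · intro y hy hadj
    have h5 := (pair_bound hb hadj.ne).2 hadj
    have h6 := ten_strict ha hb hn hd h (x := y) (by simpa using hy)
    have h7 := deg_split G A y
    omega

lemma ten_bad {A : Finset V} (h : IsMaxCut G A) {x : V} (hx : x ∈ A)
    (hpos : (nbh G x ∩ A).card ≠ 0) : ∃ u, (nbh G u).card = 2 ∧ G.Adj x u := by
  by_contra hcon
  push Not at hcon
  apply hpos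
  apply ten_erase ha hb hn hd h hx
  intro y hy hadj
  have h1 := ten_three ha hb hn hd h.compl hy
  rw [sdiff_compl_eq] at h1
  rcases h1 with h1 | h1
  · exact h1
  · exact absurd hadj (hcon y h1)

lemma ten_false : False := by
  obtain ⟨A, hA⟩ := exists_maxCut G
  have hAc := hA.compl
  have c1 := ten_card ha hb hn hd hA
  have c2 := ten_card ha hb hn hd hAc
  -- the exceptional set
  obtain ⟨B, hB, hBx⟩ : ∃ B : Finset V, B.card ≤ 2 ∧
      ∀ x u, (nbh G u).card = 2 → G.Adj x u → x ∈ B := by
    by_cases hu : ∃ u, (nbh G u).card = 2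
    · obtain ⟨u, hu⟩ := hu
      refine ⟨nbh G u, hu.le, fun x v hv hxv => ?_⟩
      have : v = u := by
        by_contra hne
        have := (pair_bound hb (u := v) (v := u) hne).1
        omega
      subst this
      exact mem_nbh.2 hxv.symm
    · push Not at hu
      exact ⟨∅, by simp, fun x u h => absurd h (hu u)⟩
  have hsub : ∀ A : Finset V, A.card = 5 → ∃ T ⊆ A \ B, T.card = 2 := by
    intro A hA
    apply exists_subset_card_eq
    have := le_card_sdiff B A
    omega
  obtain ⟨T1, hT1, hT1c⟩ := hsub A c1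
  obtain ⟨T2, hT2, hT2c⟩ := hsub Aᶜ c2
  have hC := low_compl hb (T1 ∪ T2)
  have hdis : Disjoint T1 T2 := by
    rw [disjoint_left]
    intro x h1 h2
    have h3 := (mem_sdiff.1 (hT1 h1)).1
    have h4 := (mem_sdiff.1 (hT2 h2)).1
    rw [mem_compl] at h4
    exact h4 h3
  rw [card_union_of_disjoint hdis, hT1c, hT2c] at hC
  have hz : ∑ x ∈ (T1 ∪ T2)ᶜ, ((nbh G x ∩ (T1 ∪ T2)).card + 2 - (2 + 2)) = 0 := by
    apply sum_eq_zero
    intro x _
    by_cases hx : x ∈ A
    · have : nbh G x ∩ (T1 ∪ T2) ⊆ T2 := by
        intro t ht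
        rw [mem_inter, mem_union] at ht
        rcases ht.2 with h | h
        · exfalso
          have h1 := mem_sdiff.1 (hT1 h)
          apply h1.2
          have hpos : (nbh G t ∩ A).card ≠ 0 := by
            rw [← Nat.pos_iff_ne_zero, card_pos]
            exact ⟨x, mem_inter.2 ⟨mem_nbh.2 (mem_nbh.1 ht.1).symm, hx⟩⟩
          obtain ⟨u, hu, hadj⟩ := ten_bad ha hb hn hd hA h1.1 hpos
          exact hBx t u hu hadj
        · exact h
      have := card_le_card this
      omega
    · have : nbh G x ∩ (T1 ∪ T2) ⊆ T1 := by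
        intro t ht
        rw [mem_inter, mem_union] at ht
        rcases ht.2 with h | h
        · exact h
        · exfalso
          have h1 := mem_sdiff.1 (hT2 h)
          apply h1.2
          have hpos : (nbh G t ∩ Aᶜ).card ≠ 0 := by
            rw [← Nat.pos_iff_ne_zero, card_pos]
            exact ⟨x, mem_inter.2 ⟨mem_nbh.2 (mem_nbh.1 ht.1).symm, by simpa using hx⟩⟩
          obtain ⟨u, hu, hadj⟩ := ten_bad ha hb hn hd hAc h1.1 hpos
          exact hBx t u hu hadj
      have := card_le_card this
      omega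
  rw [hz] at hC
  omega

end ten

lemma no_ten {G : SimpleGraph V} (ha : Low G 5) (hb : Low Gᶜ 5) (hn : Fintype.card V = 10)
    (hd : ∀ x, 1 ≤ (nbh G x).card) (hd' : ∀ x, 1 ≤ (nbh Gᶜ x).card) : False := by
  apply ten_false ha hb hn
  intro u
  by_contra hcon
  have hu : (nbh G u).card = 1 := by have := hd u; omega
  obtain ⟨p, hp⟩ := card_eq_one.1 hu
  have hup : G.Adj u p := mem_nbh.1 (by rw [hp]; exact mem_singleton_self p)
  have h1 := (pair_bound hb hup.ne).2 hup
  obtain ⟨z, hz⟩ := card_pos.1 (hd' p)
  have hz' := mem_nbh.1 hz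
  have hza : Low Gᶜᶜ 5 := by rw [compl_compl]; exact ha
  have h2 := (pair_bound hza hz'.ne).2 hz'
  have h3 := deg_compl G p
  have h4 := deg_compl G z
  have hzu : u ≠ z := by
    rintro rfl
    rw [SimpleGraph.compl_adj] at hz'
    exact hz'.2 hup.symm
  have h5 := (pair_bound hb hzu).1
  omega

end Pool.Agent.U439.OG
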