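import Pool.Agent.U439.OG.Game

/-!
# The bound `2n/3` for graphs without isolated vertices
-/

set_option autoImplicit false
set_option linter.unusedSectionVars false

namespace Pool.Agent.U439.OG

open Finset

variable {V : Type} [Fintype V] [DecidableEq V]

/-- `a` is a lower bound for the values which Minimizer can force. -/
def Low (H : SimpleGraph V) (a : ℕ) : Prop := ∀ k, Force H k → a ≤ k

/-- a matching, as an involution -/
def IsMat (H : SimpleGraph V) (m : V → V) : Prop :=
  (∀ v, m (m v) = v) ∧ (∀ v, m v ≠ v → H.Adj v (m v))

lemma exists_max_mat (H : SimpleGraph V) :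
    ∃ m, IsMat H m ∧ ∀ m', IsMat H m' → (mat m').card ≤ (mat m).card := by
  classical
  have hne : ((univ : Finset (V → V)).filter (fun m => IsMat H m)).Nonempty := by
    refine ⟨id, ?_⟩
    rw [mem_filter]
    exact ⟨mem_univ _, fun v => rfl, fun v h => absurd rfl h⟩
  obtain ⟨m, hm, hmax⟩ := exists_max_image _ (fun m : V → V => (mat m).card) hne
  rw [mem_filter] at hm
  exact ⟨m, hm.2, fun m' hm' => hmax m' (mem_filter.2 ⟨mem_univ _, hm'⟩)⟩

lemma two_thirds {H : SimpleGraph V} {a : ℕ} (ha : Low H a) (hiso : ∀ v, ∃ w, H.Adj v w) :
    3 * a ≤ 2 * Fintype.card V := by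
  classical
  obtain ⟨m, ⟨hm, hadj⟩, hmax⟩ := exists_max_mat H
  choose g hg using hiso
  -- the neighbour of an unmatched vertex is matched
  have c1 : ∀ u, m u = u → m (g u) ≠ g u := by
    intro u hu hgu
    have hne : u ≠ g u := (hg u).ne
    let m' : V → V := fun v => if v = u then g u else if v = g u then u else m v
    have hm' : IsMat H m' := by
      constructor
      · intro v
        simp only [m']
        have := hm v
        split_ifs <;> grind
      · intro v hv
        simp only [m'] at hv ⊢
        split_ifs with h1 h2
        · rw [h1]; exact hg u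
        · rw [h2]; exact (hg u).symm
        · rw [if_neg h1, if_neg h2] at hv
          exact hadj v hv
    have h1 : insert u (mat m) ⊆ mat m' := by
      intro v hv
      simp only [mat, mem_insert, mem_filter, mem_univ, true_and] at hv ⊢
      simp only [m']
      split_ifs with h1 h2 <;> grind
    have h2 := card_le_card h1
    rw [card_insert_of_notMem (by simp [mat, hu])] at h2
    have := hmax m' hm'
    omega
  have c2 : ∀ u u', m u = u → m u' = u' → g u' = m (g u) → u = u' := by
    intro u u' hu hu' h
    by_contra hne
    have e1 := c1 u hu
    have e2 := c1 u' hu'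
    have hx : u ≠ g u := (hg u).ne
    have hx' : u' ≠ g u' := (hg u').ne
    have a1 := hg u
    have a2 := hg u'
    set x := g u with hxdef
    set y := g u' with hydef
    have hxy : m y = x := by rw [h, hm]
    let m' : V → V := fun v => if v = u then x else if v = x then u else
      if v = u' then y else if v = y then u' else m v
    have hm' : IsMat H m' := by
      constructor
      · intro v
        simp only [m']
        have := hm v
        split_ifs <;> grind
      · intro v hv
        simp only [m'] at hv ⊢
        split_ifs with h1 h2 h3 h4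
        · rw [h1]; exact a1
        · rw [h2]; exact a1.symm
        · rw [h3]; exact a2
        · rw [h4]; exact a2.symm
        · rw [if_neg h1, if_neg h2, if_neg h3, if_neg h4] at hv
          exact hadj v hv
    have h1 : insert u (mat m) ⊆ mat m' := by
      intro v hv
      simp only [mat, mem_insert, mem_filter, mem_univ, true_and] at hv ⊢
      simp only [m']
      split_ifs with h1 h2 h3 h4 <;> grind
    have h2 := card_le_card h1
    rw [card_insert_of_notMem (by simp [mat, hu])] at h2
    have := hmax m' hm'
    omega
  -- the centres
  set U := univ.filter (fun v => m v = v) with hU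
  set C := U.image g with hC
  have hCm : ∀ c ∈ C, m c ≠ c ∧ m c ∉ C := by
    intro c hc
    rw [hC, mem_image] at hc
    obtain ⟨u, hu, rfl⟩ := hc
    rw [hU, mem_filter] at hu
    have h1 := c1 u hu.2
    refine ⟨h1, ?_⟩
    intro h
    rw [hC, mem_image] at h
    obtain ⟨u', hu', h'⟩ := h
    rw [hU, mem_filter] at hu'
    have := c2 u u' hu.2 hu'.2 h'
    subst this
    exact h1 h'.symm
  let m2 : V → V := fun v => if v ∈ C ∨ m v ∈ C then v else m v
  have hm2 : IsMat H m2 := by
    constructor
    · intro v
      simp only [m2]
      have := hm v
      split_ifs <;> grind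
    · intro v hv
      simp only [m2] at hv ⊢
      split_ifs with h1
      · rw [if_pos h1] at hv; exact absurd rfl hv
      · rw [if_neg h1] at hv; exact hadj v hv
  have hb := ha _ (force_of_struct (C := C) hm2.1 hm2.2)
  have hrest : ∀ x, x ∈ rest C m2 ↔ x ∉ C ∧ (m x = x ∨ m x ∈ C) := by
    intro x
    rw [mem_rest]
    simp only [m2]
    constructor
    · rintro ⟨h1, h2⟩
      refine ⟨h1, ?_⟩
      by_cases h3 : m x ∈ C
      · exact Or.inr h3
      · rw [if_neg (by tauto)] at h2
        exact Or.inl h2
    · rintro ⟨h1, h2⟩
      refine ⟨h1, ?_⟩
      split_ifs with h3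
      · rfl
      · rcases h2 with h2 | h2
        · exact h2
        · exact absurd (Or.inr h2) h3
  have hdef : defect H C m2 ≤ (rest C m2).card := by
    unfold defect
    rw [card_eq_sum_ones]
    apply sum_le_sum
    intro x hx
    have h1 : 0 < (C.filter (fun c => H.Adj x c)).card := by
      rw [card_pos]
      rw [hrest] at hx
      rcases hx.2 with h | h
      · refine ⟨g x, mem_filter.2 ⟨?_, hg x⟩⟩
        rw [hC]
        exact mem_image_of_mem _ (by rw [hU, mem_filter]; exact ⟨mem_univ _, h⟩)
      · refine ⟨m x, mem_filter.2 ⟨h, hadj x ?_⟩⟩
        intro h2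
        rw [h2] at h
        exact hx.1 h
    omega
  have hcard : 2 * C.card ≤ (rest C m2).card := by
    have h1 : U ∪ C.image m ⊆ rest C m2 := by
      intro x hx
      rw [hrest]
      rw [mem_union] at hx
      rcases hx with hx | hx
      · rw [hU, mem_filter] at hx
        exact ⟨fun h => (hCm x h).1 hx.2, Or.inl hx.2⟩
      · rw [mem_image] at hx
        obtain ⟨c, hc, rfl⟩ := hx
        exact ⟨(hCm c hc).2, Or.inr (by rw [hm]; exact hc)⟩
    have h2 : Disjoint U (C.image m) := by
      rw [disjoint_left]
      intro x hx hx'
      rw [mem_image] at hx'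
      obtain ⟨c, hc, rfl⟩ := hx'
      rw [hU, mem_filter, hm] at hx
      exact (hCm c hc).1 hx.2.symm
    have h3 : (C.image m).card = C.card := by
      apply card_image_of_injective
      intro x y hxy
      have := congrArg m hxy
      rwa [hm, hm] at this
    have h4 : C.card ≤ U.card := card_image_le
    have h5 := card_le_card h1
    rw [card_union_of_disjoint h2, h3] at h5
    omega
  have htot : C.card + (mat m2).card + (rest C m2).card ≤ Fintype.card V := by
    have h1 : Disjoint C (mat m2) := by
      rw [disjoint_left]
      intro x hx hx'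
      simp only [mat, mem_filter, mem_univ, true_and, m2] at hx'
      rw [if_pos (Or.inl hx)] at hx'
      exact hx' rfl
    have h2 : Disjoint (C ∪ mat m2) (rest C m2) := by
      rw [disjoint_left]
      intro x hx hx'
      rw [mem_rest] at hx'
      rw [mem_union] at hx
      rcases hx with hx | hx
      · exact hx'.1 hx
      · simp only [mat, mem_filter, mem_univ, true_and] at hx
        exact hx hx'.2
    rw [← card_union_of_disjoint h1, ← card_union_of_disjoint h2]
    exact card_le_univ _
  omega

end Pool.Agent.U439.OG
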